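import Pool.Agent.Work.MP_c9f990_an.Al.Defs

set_option autoImplicit false

/-!
# MP_c9f990_an: statements of the items of block AL
-/

open MeasureTheory Set Filter Topology
open scoped NNReal ENNReal

namespace Pool.Agent.Work.MP_c9f990_an.Al

/-- global existence for `y' = G t y`, `G` continuous and Lipschitz in `y` -/
def ODE : Prop := ∀ (Q : Type) [NormedAddCommGroup Q] [NormedSpace ℝ Q] [FiniteDimensional ℝ Q]
  (G : ℝ → Q → Q) (K : ℝ → ℝ), Continuous (fun p : ℝ × Q => G p.1 p.2) → Continuous K →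
  (∀ t x y, ‖G t x - G t y‖ ≤ K t * ‖x - y‖) →
  ∀ z : Q, ∃ y : ℝ → Q, y 0 = z ∧ ∀ t, HasDerivAt y (G t (y t)) t

/-- the complete `C^1` flow of a `C^1` Lipschitz vector field -/
def FLOW : Prop := ∀ (Q : Type) [NormedAddCommGroup Q] [NormedSpace ℝ Q] [FiniteDimensional ℝ Q]
  (F : Q → Q) (L : ℝ≥0), LipschitzWith L F → ContDiff ℝ 1 F →
  ∃ (φ : ℝ → Q → Q) (M : ℝ → Q → Q →L[ℝ] Q), IsFlow F φ M

/-- the kernel and its derivative are bounded -/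
def PERB : Prop := ∀ (n : ℕ) (Φ : E n → ℝ), Kernel Φ →
  ∃ A : ℝ, ∀ x, |Φ x| ≤ A ∧ ‖fderiv ℝ Φ x‖ ≤ A

/-- the cut-off field is `C^1` and Lipschitz -/
def FLD : Prop := ∀ (n N : ℕ) (Φ : E n → ℝ) (R : ℝ), Kernel Φ →
  ContDiff ℝ 1 (fld (N := N) Φ R) ∧ ∃ L : ℝ≥0, LipschitzWith L (fld (N := N) Φ R)

/-- Liouville -/
def LIOU : Prop := ∀ (Q : Type) [NormedAddCommGroup Q] [NormedSpace ℝ Q] [FiniteDimensional ℝ Q]
  (F : Q → Q) (φ : ℝ → Q → Q) (M : ℝ → Q → Q →L[ℝ] Q), IsFlow F φ M → ContDiff ℝ 1 F →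
  ∀ z t, (M t z).det =
    Real.exp (∫ s in (0 : ℝ)..t, LinearMap.trace ℝ Q (fderiv ℝ F (φ s z) : Q →ₗ[ℝ] Q))

/-- trace of the derivative of the field -/
def TRF : Prop := ∀ (n N : ℕ) (Φ : E n → ℝ) (R : ℝ), Kernel Φ → ∀ z : P N n, ke z.2 < R + 1 →
  LinearMap.trace ℝ (P N n) (fderiv ℝ (fld Φ R) z : P N n →ₗ[ℝ] P N n) = -(n : ℝ) * total Φ z

/-- the flow commutes with the lattice translations -/
def EQV : Prop := ∀ (n N : ℕ) (Φ : E n → ℝ) (R : ℝ), Kernel Φ →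
  ∀ (φ : ℝ → P N n → P N n) (M : ℝ → P N n → P N n →L[ℝ] P N n), IsFlow (fld Φ R) φ M →
  ∀ (m : Fin N → Fin n → ℤ) (t : ℝ) (z : P N n), φ t (z + (latC m, 0)) = φ t z + (latC m, 0)

/-- flock solutions and orbits of the cut-off flow agree as long as the energy is at most `R` -/
def REP : Prop := ∀ (n N : ℕ) (Φ : E n → ℝ) (R : ℝ), Kernel Φ →
  ∀ (φ : ℝ → P N n → P N n) (M : ℝ → P N n → P N n →L[ℝ] P N n), IsFlow (fld Φ R) φ M →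
  (∀ z, ke z.2 ≤ R → (∀ t, 0 ≤ t → ke (φ t z).2 ≤ R) ∧
    IsFlock Φ (fun t => (φ t z).1) (fun t => (φ t z).2)) ∧
  (∀ x v : ℝ → C N n, IsFlock Φ x v → ke (v 0) ≤ R → ∀ t, 0 ≤ t → (x t, v t) = φ t (x 0, v 0))

/-- change of variables on the torus -/
def CHG : Prop := ∀ (n N : ℕ) (F : P N n → P N n) (φ : ℝ → P N n → P N n)
  (M : ℝ → P N n → P N n →L[ℝ] P N n), IsFlow F φ M →
  (∀ (m : Fin N → Fin n → ℤ) (t : ℝ) (z : P N n), φ t (z + (latC m, 0)) = φ t z + (latC m, 0)) →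
  ∀ (t : ℝ) (h : P N n → ℝ≥0∞), Measurable h →
  (∀ (m : Fin N → Fin n → ℤ) (z : P N n), h (z + (latC m, 0)) = h z) →
  ∫⁻ z in slab N n, h (φ t z) * ENNReal.ofReal |(M t z).det| = ∫⁻ z in slab N n, h z

/-- the flux inequality -/
def FLUX : Prop := ∀ (n N : ℕ) (F : P N n → P N n) (φ : ℝ → P N n → P N n)
  (M : ℝ → P N n → P N n →L[ℝ] P N n), IsFlow F φ M →
  (∀ (m : Fin N → Fin n → ℤ) (t : ℝ) (z : P N n), φ t (z + (latC m, 0)) = φ t z + (latC m, 0)) →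
  ∀ a : P N n → ℝ, Continuous a → (∀ z, 0 ≤ a z) →
  (∀ (m : Fin N → Fin n → ℤ) (z : P N n), a (z + (latC m, 0)) = a z) →
  ∀ B S : Set (P N n), MeasurableSet B → MeasurableSet S →
  (∀ (m : Fin N → Fin n → ℤ) (z : P N n), z ∈ B → z + (latC m, 0) ∈ B) →
  ∀ J δ κ : ℝ, 0 ≤ δ → 0 ≤ κ →
  (∀ z ∈ B, ∀ t, 0 ≤ t → (∫ s in (0 : ℝ)..t, a (φ s z)) ∈ Icc J (J + 1) →
    φ t z ∈ S ∧ κ ≤ |(M t z).det|) →
  (∀ z ∈ B, ENNReal.ofReal δ ≤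
    volume {t : ℝ | 0 ≤ t ∧ (∫ s in (0 : ℝ)..t, a (φ s z)) ∈ Icc J (J + 1)}) →
  ENNReal.ofReal (δ * κ) * ∫⁻ z in B ∩ slab N n, ENNReal.ofReal (a z) ≤ volume (S ∩ slab N n)

/-- volume of the thin sets in the space of pairs -/
def TH1 : Prop := ∀ (n : ℕ) (m : E n) (A : ℝ), m ≠ 0 → 0 < A →
  ∃ A' : ℝ, 0 ≤ A' ∧ ∀ η ε : ℝ, 0 < ε → ε ≤ η → η ≤ 1 →
  volume {w : E n × E n | ‖w.2‖ ≤ A ∧ ‖w.1‖ ≤ η ∧ 1 ≤ A * ‖w.2‖ ∧ ‖dev w.1 w.2‖ ≤ A * ε ∧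
    |inner ℝ m w.2| ≤ A * ε} ≤ ENNReal.ofReal (A' * η * ε ^ n)

/-- from pairs to the phase space -/
def TH2 : Prop := ∀ (n N : ℕ) (i j k : Fin N) (A : ℝ), i ≠ j → i ≠ k → j ≠ k →
  ∃ A' : ℝ, 0 ≤ A' ∧ ∀ S : Set (E n × E n), MeasurableSet S →
  volume ({z : P N n | ke z.2 ≤ A ∧ (z.2 i - z.2 j, z.2 k - z.2 j) ∈ S} ∩ slab N n) ≤
    ENNReal.ofReal A' * volume S

/-- volume of the thin sets -/
def THIN : Prop := ∀ (n N : ℕ) (i j k : Fin N) (m : E n) (A : ℝ), i ≠ j → i ≠ k → j ≠ k →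
  m ≠ 0 → 0 < A → ∃ A' : ℝ, 0 ≤ A' ∧ ∀ η ε : ℝ, 0 < ε → ε ≤ η → η ≤ 1 →
  volume (thin i j k m A η ε ∩ slab N n) ≤ ENNReal.ofReal (A' * η * ε ^ n)

/-- determinant of the flow -/
def DET : Prop := ∀ (n N : ℕ) (Φ : E n → ℝ) (R : ℝ), Kernel Φ →
  ∀ (φ : ℝ → P N n → P N n) (M : ℝ → P N n → P N n →L[ℝ] P N n), IsFlow (fld Φ R) φ M →
  ∀ z, ke z.2 ≤ R → ∀ t, 0 ≤ t →
  (M t z).det = Real.exp (-(n : ℝ) * ∫ s in (0 : ℝ)..t, total Φ (φ s z))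

/-- the first exceptional set is null -/
def NUL1 : Prop := ∀ (n N : ℕ) (Φ : E n → ℝ) (R : ℝ), Kernel Φ →
  ∀ (φ : ℝ → P N n → P N n) (M : ℝ → P N n → P N n →L[ℝ] P N n), IsFlow (fld Φ R) φ M →
  ∀ (i j : Fin N) (e : E n) (κ : ℝ), i ≠ j → e ≠ 0 → 0 < κ → volume (Bad1 φ M R κ i j e) = 0

/-- the second exceptional set is null -/
def NUL2 : Prop := ∀ (n N : ℕ) (Φ : E n → ℝ) (R : ℝ), Kernel Φ →
  ∀ (φ : ℝ → P N n → P N n) (M : ℝ → P N n → P N n →L[ℝ] P N n), IsFlow (fld Φ R) φ M →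
  ∀ (i j k : Fin N) (m : E n), i ≠ j → i ≠ k → j ≠ k → m ≠ 0 → volume (Bad2 Φ φ R i j k m) = 0

/-- a continuous nonnegative function `a ≤ A` with unbounded integral: its integral needs at
least time `1 / A` to grow from `J` to `J + 1` -/
def DUR : Prop := ∀ (a : ℝ → ℝ) (A : ℝ), Continuous a → (∀ t, 0 ≤ a t) → (∀ t, a t ≤ A) → 0 < A →
  ¬ BddInt a → ∀ J : ℝ, 0 ≤ J → ENNReal.ofReal (1 / A) ≤
    volume {t : ℝ | 0 ≤ t ∧ (∫ s in (0 : ℝ)..t, a s) ∈ Icc J (J + 1)}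

/-- a continuous function on the half line which approaches a finite set converges -/
def FINS : Prop := ∀ (a : ℝ → ℝ) (S : Finset ℝ), ContinuousOn a (Ici 0) →
  Tendsto (fun t => Metric.infDist (a t) (S : Set ℝ)) atTop (𝓝 0) → S.Nonempty →
  ∃ c : ℝ, Tendsto a atTop (𝓝 c)

/-- the energy inequality -/
def ENG : Prop := ∀ (n N : ℕ) (Φ : E n → ℝ), Kernel Φ → ∀ x v : ℝ → C N n, IsFlock Φ x v →
  (∀ s t, 0 ≤ s → s ≤ t → ke (v t) ≤ ke (v s)) ∧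
  ∀ T, 0 ≤ T → ∫ t in (0 : ℝ)..T, ((N : ℝ)⁻¹ * ∑ i, ∑ j, Φ (x t i - x t j) * ‖v t i - v t j‖ ^ 2) ≤
    ke (v 0)

/-- all velocities converge -/
def CONV : Prop := ∀ (n N : ℕ) (Φ : E n → ℝ), Kernel Φ → ∀ x v : ℝ → C N n, IsFlock Φ x v →
  ∃ c : C N n, ∀ i, Tendsto (fun t => v t i) atTop (𝓝 (c i))

/-- agents with different limit velocities have integrable interaction -/
def INTG : Prop := ∀ (n N : ℕ) (Φ : E n → ℝ), Kernel Φ → ∀ x v : ℝ → C N n, IsFlock Φ x v →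
  ∀ c : C N n, (∀ i, Tendsto (fun t => v t i) atTop (𝓝 (c i))) →
  ∀ i j, c i ≠ c j → BddInt (fun t => Φ (x t i - x t j))

/-- uniform lower bound of the time averages along a nonresonant direction -/
def UE : Prop := ∀ (n : ℕ) (Φ : E n → ℝ), Kernel Φ → ∀ u : E n, ¬ Resonant u →
  ∃ L c : ℝ, 0 < L ∧ 0 < c ∧ ∀ x : E n, c ≤ ∫ t in (0 : ℝ)..L, Φ (x + t • u)

/-- if the relative velocity converges and the interaction is integrable, then the limit is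
resonant -/
def RESO : Prop := ∀ (n : ℕ) (Φ : E n → ℝ), Kernel Φ → ∀ (r w : ℝ → E n) (u : E n),
  (∀ t, 0 ≤ t → HasDerivWithinAt r (w t) (Ici 0) t) → Tendsto w atTop (𝓝 u) →
  BddInt (fun t => Φ (r t)) → Resonant u

/-- the components which align are controlled by the clock of the bond -/
def EST : Prop := ∀ (n N : ℕ) (Φ : E n → ℝ), Kernel Φ → ∀ x v : ℝ → C N n, IsFlock Φ x v →
  ∀ c : C N n, (∀ l, Tendsto (fun t => v t l) atTop (𝓝 (c l))) → ∀ i j : Fin N, i ≠ j →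
  BddInt (fun t => rest Φ i j (x t, v t)) → ∀ e : E n,
  (∀ l l', inner ℝ e (c l) = inner ℝ e (c l')) →
  ∃ A T₀ : ℝ, ∀ t, T₀ ≤ t → ∀ l l', |inner ℝ e (v t l - v t l')| ≤
    A * Real.exp (-clock Φ i j (fun s => (x s, v s)) t)

/-- linear algebra: from the components to `dev` -/
def TUBE : Prop := ∀ (n N : ℕ) (v : ℝ → C N n) (c : C N n) (σ : ℝ → ℝ) (i j k : Fin N) (m : E n),
  (∀ l, Tendsto (fun t => v t l) atTop (𝓝 (c l))) → c i = c j → c k ≠ c j →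
  inner ℝ m (c k - c j) = 0 → (∀ t, 0 ≤ σ t) →
  (∀ e : E n, inner ℝ e (c k - c j) = 0 → ∃ A T₀ : ℝ, ∀ t, T₀ ≤ t → ∀ l l',
    |inner ℝ e (v t l - v t l')| ≤ A * σ t) →
  ∃ A T₀ : ℝ, 0 < A ∧ ∀ t, T₀ ≤ t → 1 ≤ A * ‖v t k - v t j‖ ∧
    ‖dev (v t i - v t j) (v t k - v t j)‖ ≤ A * σ t ∧ |inner ℝ m (v t k - v t j)| ≤ A * σ t

end Pool.Agent.Work.MP_c9f990_an.Al
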