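import Mathlib

set_option autoImplicit false

/-!
# MP_c9f990_an: three agents align, and general flocks with one aligned pair.  Definitions
-/

open MeasureTheory Set Filter Topology

namespace Pool.Agent.Work.MP_c9f990_an.Al

/-- positions or velocities of one agent (positions are lifted from the torus) -/
abbrev E (n : ℕ) := EuclideanSpace ℝ (Fin n)

/-- positions or velocities of all agents -/
abbrev C (N n : ℕ) := Fin N → E n

/-- phase space (lifted) -/
abbrev P (N n : ℕ) := C N n × C N n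

/-- the lattice vector `2 pi m` -/
noncomputable def lat {n : ℕ} (m : Fin n → ℤ) : E n := WithLp.toLp 2 (fun k => 2 * Real.pi * (m k : ℝ))

/-- translation of every agent by a lattice vector -/
noncomputable def latC {N n : ℕ} (m : Fin N → Fin n → ℤ) : C N n := fun i => lat (m i)

/-- interaction kernel on the torus: periodic, even, nonnegative, positive at the origin, `C^1` -/
structure Kernel {n : ℕ} (Φ : E n → ℝ) : Prop where
  per : ∀ (m : Fin n → ℤ) (x : E n), Φ (x + lat m) = Φ x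
  even : ∀ x, Φ (-x) = Φ x
  nonneg : ∀ x, 0 ≤ Φ x
  pos : 0 < Φ 0
  smooth : ContDiff ℝ 1 Φ

variable {N n : ℕ}

/-- the Cucker-Smale accelerations -/
noncomputable def force (Φ : E n → ℝ) (z : P N n) : C N n :=
  fun i => (N : ℝ)⁻¹ • ∑ j, Φ (z.1 i - z.1 j) • (z.2 j - z.2 i)

/-- `(x, v)` solves the Cucker-Smale system on `[0, ∞)` -/
def IsFlock (Φ : E n → ℝ) (x v : ℝ → C N n) : Prop :=
  ∀ t, 0 ≤ t → HasDerivWithinAt x (v t) (Ici 0) t ∧
    HasDerivWithinAt v (force Φ (x t, v t)) (Ici 0) t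

/-- kinetic energy -/
noncomputable def ke (v : C N n) : ℝ := ∑ i, ‖v i‖ ^ 2

/-- cut-off, equal to `1` for `ke v ≤ R + 1` and to `0` for `ke v ≥ R + 2` -/
noncomputable def chi (R : ℝ) (v : C N n) : ℝ := Real.smoothTransition (R + 2 - ke v)

/-- the cut-off vector field -/
noncomputable def fld (Φ : E n → ℝ) (R : ℝ) (z : P N n) : P N n := (z.2, chi R z.2 • force Φ z)

/-- `φ` is the complete flow of the vector field `F`, `M` its derivative in the initial point -/
structure IsFlow {Q : Type} [NormedAddCommGroup Q] [NormedSpace ℝ Q] (F : Q → Q) (φ : ℝ → Q → Q)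
    (M : ℝ → Q → Q →L[ℝ] Q) : Prop where
  zero : ∀ z, φ 0 z = z
  ode : ∀ z t, HasDerivAt (fun s => φ s z) (F (φ t z)) t
  add : ∀ s t z, φ (s + t) z = φ s (φ t z)
  cont : Continuous (fun p : ℝ × Q => φ p.1 p.2)
  diff : ∀ t z, HasFDerivAt (φ t) (M t z) z
  M0 : ∀ z, M 0 z = ContinuousLinearMap.id ℝ Q
  Mode : ∀ z t, HasDerivAt (fun s => M s z) ((fderiv ℝ F (φ t z)).comp (M t z)) t
  Mcont : Continuous (fun p : ℝ × Q => M p.1 p.2)
  uniq : ∀ y : ℝ → Q, (∀ t, 0 ≤ t → HasDerivWithinAt y (F (y t)) (Ici 0) t) →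
    ∀ t, 0 ≤ t → y t = φ t (y 0)

/-- fundamental domain of the lattice translations of the positions -/
def slab (N n : ℕ) : Set (P N n) := {z | ∀ i k, 0 ≤ z.1 i k ∧ z.1 i k < 2 * Real.pi}

/-- `u` satisfies an integral resonance relation -/
def Resonant (u : E n) : Prop := ∃ m : Fin n → ℤ, m ≠ 0 ∧ ∑ k, (m k : ℝ) * u k = 0

/-- bond of the agents `i` and `j` -/
noncomputable def bond (Φ : E n → ℝ) (i j : Fin N) (z : P N n) : ℝ :=
  2 * (N : ℝ)⁻¹ * Φ (z.1 i - z.1 j)

/-- total interaction outside of the bond of `i` and `j` -/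
noncomputable def rest (Φ : E n → ℝ) (i j : Fin N) (z : P N n) : ℝ :=
  (N : ℝ)⁻¹ * ∑ a, ∑ b, if a = b ∨ (a = i ∧ b = j) ∨ (a = j ∧ b = i) then 0
    else Φ (z.1 a - z.1 b)

/-- total interaction -/
noncomputable def total (Φ : E n → ℝ) (z : P N n) : ℝ :=
  (N : ℝ)⁻¹ * ∑ a, ∑ b, if a = b then 0 else Φ (z.1 a - z.1 b)

/-- a function on the half line with bounded integral -/
def BddInt (g : ℝ → ℝ) : Prop := ∃ A : ℝ, ∀ T, 0 ≤ T → ∫ t in (0 : ℝ)..T, g t ≤ A

/-- `q` times the distance of `p` from the line spanned by `q`, up to a factor `|q|` -/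
noncomputable def dev (p q : E n) : E n := (‖q‖ ^ 2) • p - (inner ℝ p q) • q

/-- the thin sets of the volume estimate: `p = v_i - v_j` is small and almost parallel to
`q = v_k - v_j`, which is almost orthogonal to `m` -/
def thin (i j k : Fin N) (m : E n) (A η ε : ℝ) : Set (P N n) :=
  {z | ke z.2 ≤ A ∧ ‖z.2 i - z.2 j‖ ≤ η ∧ 1 ≤ A * ‖z.2 k - z.2 j‖ ∧
    ‖dev (z.2 i - z.2 j) (z.2 k - z.2 j)‖ ≤ A * ε ∧
    |inner ℝ m (z.2 k - z.2 j)| ≤ A * ε}

/-- accumulated bond -/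
noncomputable def clock (Φ : E n → ℝ) (i j : Fin N) (y : ℝ → P N n) (t : ℝ) : ℝ :=
  ∫ s in (0 : ℝ)..t, bond Φ i j (y s)

/-- first exceptional set: no contraction, and a component of `v_i - v_j` tends to `0` -/
def Bad1 (φ : ℝ → P N n → P N n) (M : ℝ → P N n → P N n →L[ℝ] P N n) (R κ : ℝ) (i j : Fin N)
    (e : E n) : Set (P N n) :=
  {z | (∀ t, 0 ≤ t → ke (φ t z).2 ≤ R ∧ κ ≤ |(M t z).det|) ∧
    Tendsto (fun t => inner ℝ e ((φ t z).2 i - (φ t z).2 j)) atTop (𝓝 0)}

/-- second exceptional set: the bond of `i` and `j` is not integrable, all other interactions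
are, `v_i - v_j` tends to `0`, is almost parallel to `v_k - v_j`, and the latter is almost
orthogonal to `m`, both up to the factor `exp (- clock)` -/
def Bad2 (Φ : E n → ℝ) (φ : ℝ → P N n → P N n) (R : ℝ) (i j k : Fin N) (m : E n) :
    Set (P N n) :=
  {z | ke z.2 ≤ R ∧ BddInt (fun t => rest Φ i j (φ t z)) ∧ ¬ BddInt (fun t => bond Φ i j (φ t z)) ∧
    Tendsto (fun t => (φ t z).2 i - (φ t z).2 j) atTop (𝓝 0) ∧
    ∃ A T₀ : ℝ, 0 < A ∧ ∀ t, T₀ ≤ t →
      1 ≤ A * ‖(φ t z).2 k - (φ t z).2 j‖ ∧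
      ‖dev ((φ t z).2 i - (φ t z).2 j) ((φ t z).2 k - (φ t z).2 j)‖ ≤
        A * Real.exp (-clock Φ i j (fun s => φ s z) t) ∧
      |inner ℝ m ((φ t z).2 k - (φ t z).2 j)| ≤ A * Real.exp (-clock Φ i j (fun s => φ s z) t)}

end Pool.Agent.Work.MP_c9f990_an.Al
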