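import Pool.Agent.Work.MP_c9f990_an.Al.Stmts

set_option autoImplicit false

/-!
# Change of variables modulo the lattice
-/

open MeasureTheory Set Filter Topology
open scoped NNReal ENNReal

namespace Pool.Agent.Work.MP_c9f990_an.Al

namespace I_CHGX

variable {N n : ℕ}

theorem latC_apply (m : Fin N → Fin n → ℤ) (i : Fin N) (k : Fin n) :
    (latC m : C N n) i k = 2 * Real.pi * (m i k : ℝ) := rfl

theorem latC_zero : (latC (0 : Fin N → Fin n → ℤ) : C N n) = 0 := by
  ext i k
  rw [latC_apply]
  simp

theorem latC_add (m m' : Fin N → Fin n → ℤ) :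
    (latC (m + m') : C N n) = latC m + latC m' := by
  ext i k
  rw [latC_apply]
  change _ = (latC m : C N n) i k + (latC m' : C N n) i k
  rw [latC_apply, latC_apply]
  simp only [Pi.add_apply]
  push_cast
  ring

/-- the homomorphism whose image is the group of the lattice translations -/
noncomputable def hom (N n : ℕ) : (Fin N → Fin n → ℤ) →+ P N n where
  toFun m := (latC m, 0)
  map_zero' := by rw [latC_zero]; rfl
  map_add' m m' := by rw [latC_add, Prod.mk_add_mk, add_zero]

/-- the group of the lattice translations -/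
noncomputable def lam (N n : ℕ) : AddSubgroup (P N n) := (hom N n).range

instance : Countable (lam N n) :=
  (hom N n).rangeRestrict_surjective.countable

theorem mem_lam {g : P N n} : g ∈ lam N n ↔ ∃ m : Fin N → Fin n → ℤ, (latC m, 0) = g :=
  AddMonoidHom.mem_range

theorem hom_inj {m m' : Fin N → Fin n → ℤ} (h : ((latC m, 0) : P N n) = (latC m', 0)) :
    m = m' := by
  have h1 : (latC m : C N n) = latC m' := (Prod.mk.inj h).1
  ext i k
  have h2 : (latC m : C N n) i k = (latC m' : C N n) i k := by rw [h1]
  rw [latC_apply, latC_apply] at h2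
  have h3 : (m i k : ℝ) = m' i k := mul_left_cancel₀ (by positivity) h2
  exact_mod_cast h3

theorem haarC : (volume : Measure (C N n)).IsAddHaarMeasure := by
  change (Measure.pi fun _ : Fin N => (volume : Measure (E n))).IsAddHaarMeasure
  infer_instance

instance haarP : (volume : Measure (P N n)).IsAddHaarMeasure := by
  have := haarC (N := N) (n := n)
  exact Measure.prod.instIsAddHaarMeasure (volume : Measure (C N n)) (volume : Measure (C N n))

theorem slab_meas : MeasurableSet (slab N n) := by
  have h1 : slab N n = ⋂ i, ⋂ k, {z : P N n | 0 ≤ z.1 i k ∧ z.1 i k < 2 * Real.pi} := by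
    ext z
    simp only [slab, mem_iInter]
    rfl
  rw [h1]
  refine MeasurableSet.iInter fun i => MeasurableSet.iInter fun k => ?_
  have h2 : Continuous (fun z : P N n => z.1 i k) := by fun_prop
  exact (measurableSet_le measurable_const h2.measurable).inter
    (measurableSet_lt h2.measurable measurable_const)

/-- every point has exactly one translate in the slab -/
theorem slab_unique (z : P N n) : ∃! m : Fin N → Fin n → ℤ, z + (latC m, 0) ∈ slab N n := by
  have hp : 0 < 2 * Real.pi := by positivity
  have key : ∀ m : Fin N → Fin n → ℤ, z + (latC m, 0) ∈ slab N n ↔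
      ∀ i k, m i k = -⌊z.1 i k / (2 * Real.pi)⌋ := by
    intro m
    have h1 : z + (latC m, 0) ∈ slab N n ↔ ∀ i k, 0 ≤ z.1 i k + 2 * Real.pi * (m i k : ℝ) ∧
        z.1 i k + 2 * Real.pi * (m i k : ℝ) < 2 * Real.pi := Iff.rfl
    rw [h1]
    refine forall_congr' fun i => forall_congr' fun k => ?_
    constructor
    · rintro ⟨h2, h3⟩
      have h4 : ⌊z.1 i k / (2 * Real.pi)⌋ = -m i k := by
        rw [Int.floor_eq_iff, le_div_iff₀ hp, div_lt_iff₀ hp]
        push_cast
        constructor
        · linarith
        · linarith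
      rw [h4, neg_neg]
    · intro h2
      have h3 := Int.floor_le (z.1 i k / (2 * Real.pi))
      have h4 := Int.lt_floor_add_one (z.1 i k / (2 * Real.pi))
      rw [le_div_iff₀ hp] at h3
      rw [div_lt_iff₀ hp] at h4
      rw [h2]
      push_cast
      constructor
      · linarith
      · linarith
  refine ⟨fun i k => -⌊z.1 i k / (2 * Real.pi)⌋, (key _).2 fun i k => rfl, fun m hm => ?_⟩
  ext i k
  exact (key m).1 hm i k

/-- translation invariant properties -/
theorem fund (s : Set (P N n)) (hs : MeasurableSet s)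
    (h : ∀ z, ∃! m : Fin N → Fin n → ℤ, z + (latC m, 0) ∈ s) :
    IsAddFundamentalDomain (lam N n) s volume := by
  refine IsAddFundamentalDomain.mk' hs.nullMeasurableSet fun z => ?_
  obtain ⟨m, h1, h2⟩ := h z
  refine ⟨⟨(latC m, 0), mem_lam.2 ⟨m, rfl⟩⟩, ?_, ?_⟩
  · change (latC m, 0) + z ∈ s
    rw [add_comm]
    exact h1
  · rintro ⟨g, hg⟩ hgs
    obtain ⟨m', rfl⟩ := mem_lam.1 hg
    have h3 : z + (latC m', 0) ∈ s := by
      rw [add_comm]
      exact hgs
    have h4 := h2 m' h3
    subst h4
    rfl

end I_CHGX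

open I_CHGX in
theorem I_CHG : CHG := by
  intro n N F φ M hφ heq t h hh hper
  have hcont : ∀ s, Continuous (φ s) := fun s =>
    hφ.cont.comp (continuous_const.prodMk continuous_id)
  have inv1 : ∀ z, φ (-t) (φ t z) = z := by
    intro z
    rw [← hφ.add, neg_add_cancel, hφ.zero]
  have inv2 : ∀ z, φ t (φ (-t) z) = z := by
    intro z
    rw [← hφ.add, add_neg_cancel, hφ.zero]
  have himg : φ t '' slab N n = φ (-t) ⁻¹' slab N n := by
    ext z
    rw [mem_image, mem_preimage]
    constructor
    · rintro ⟨w, hw, rfl⟩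
      rwa [inv1]
    · intro hz
      exact ⟨_, hz, inv2 z⟩
  have hm : MeasurableSet (φ t '' slab N n) := by
    rw [himg]
    exact (hcont (-t)).measurable slab_meas
  have fd1 : IsAddFundamentalDomain (lam N n) (slab N n) volume := fund _ slab_meas slab_unique
  have fd2 : IsAddFundamentalDomain (lam N n) (φ t '' slab N n) volume := by
    refine fund _ hm fun z => ?_
    obtain ⟨m, h1, h2⟩ := slab_unique (φ (-t) z)
    have h3 : ∀ m : Fin N → Fin n → ℤ, z + (latC m, 0) ∈ φ t '' slab N n ↔
        φ (-t) z + (latC m, 0) ∈ slab N n := by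
      intro m
      rw [himg, mem_preimage, heq]
    refine ⟨m, (h3 m).2 h1, fun m' hm' => h2 m' ((h3 m').1 hm')⟩
  have e1 := lintegral_image_eq_lintegral_abs_det_fderiv_mul (volume : Measure (P N n))
    (slab_meas (N := N) (n := n)) (f := φ t) (f' := M t)
    (fun z _ => (hφ.diff t z).hasFDerivWithinAt)
    (fun z _ w _ hzw => by
      have := congrArg (φ (-t)) hzw
      rwa [inv1, inv1] at this) h
  have e2 : ∫⁻ z in slab N n, h z = ∫⁻ z in φ t '' slab N n, h z := by
    refine fd1.setLIntegral_eq fd2 h ?_
    rintro ⟨g, hg⟩ z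
    obtain ⟨m, rfl⟩ := mem_lam.1 hg
    change h ((latC m, 0) + z) = h z
    rw [add_comm]
    exact hper m z
  rw [e2, e1]
  refine lintegral_congr fun z => ?_
  rw [mul_comm]

end Pool.Agent.Work.MP_c9f990_an.Al
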