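import Pool.Agent.Work.MP_c9f990_an.Al.Stmts

set_option autoImplicit false

/-!
# MP_c9f990_an, item EST: the aligning components are controlled by the clock
-/

open MeasureTheory Set Filter Topology

namespace Pool.Agent.Work.MP_c9f990_an.Al

namespace I_ESTX

variable {N : ℕ}

/-- symmetrization -/
lemma pairid (k : Fin N → Fin N → ℝ) (hk : ∀ a b, k a b = k b a) (w y : Fin N → ℝ) (c : ℝ) :
    ∑ a, w a * (c * ∑ b, k a b * (y b - y a)) =
      -(c / 2) * ∑ a, ∑ b, k a b * (w a - w b) * (y a - y b) := by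
  have h1 : ∑ a, w a * (c * ∑ b, k a b * (y b - y a)) =
      c * ∑ a, ∑ b, k a b * (w a * (y b - y a)) := by
    rw [Finset.mul_sum]
    refine Finset.sum_congr rfl fun a _ => ?_
    rw [Finset.mul_sum, Finset.mul_sum, Finset.mul_sum]
    refine Finset.sum_congr rfl fun b _ => ?_
    ring
  have h2 : ∑ a, ∑ b, k a b * (w a * (y b - y a)) = ∑ a, ∑ b, k a b * (w b * (y a - y b)) := by
    rw [Finset.sum_comm]
    refine Finset.sum_congr rfl fun a _ => Finset.sum_congr rfl fun b _ => ?_
    rw [hk b a]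
  have h3 : ∑ a, ∑ b, k a b * (w a - w b) * (y a - y b) =
      -(∑ a, ∑ b, k a b * (w a * (y b - y a))) - ∑ a, ∑ b, k a b * (w b * (y a - y b)) := by
    rw [← Finset.sum_neg_distrib, ← Finset.sum_sub_distrib]
    refine Finset.sum_congr rfl fun a _ => ?_
    rw [← Finset.sum_neg_distrib, ← Finset.sum_sub_distrib]
    refine Finset.sum_congr rfl fun b _ => ?_
    ring
  rw [h1, h3, ← h2]
  ring

/-- splitting off the pair `i, j` -/
lemma split (i j : Fin N) (hij : i ≠ j) (F : Fin N → Fin N → ℝ) (hF : ∀ a, F a a = 0) :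
    ∑ a, ∑ b, F a b = F i j + F j i +
      ∑ a, ∑ b, (if a = b ∨ (a = i ∧ b = j) ∨ (a = j ∧ b = i) then 0 else F a b) := by
  classical
  have h : ∀ a b : Fin N, F a b =
      ((if a = i then (if b = j then F i j else 0) else 0) +
        (if a = j then (if b = i then F j i else 0) else 0)) +
      (if a = b ∨ (a = i ∧ b = j) ∨ (a = j ∧ b = i) then 0 else F a b) := by
    intro a b
    by_cases h1 : a = b
    · subst h1
      by_cases h2 : a = i
      · subst h2
        simp [hij, hF]
      · by_cases h3 : a = j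
        · subst h3
          simp [h2, hF]
        · simp [h2, h3, hF]
    · by_cases h2 : a = i ∧ b = j
      · obtain ⟨rfl, rfl⟩ := h2
        simp [h1]
      · by_cases h3 : a = j ∧ b = i
        · obtain ⟨rfl, rfl⟩ := h3
          simp [h1]
        · have e1 : (if a = i then (if b = j then F i j else 0) else 0) = 0 := by
            by_cases h4 : a = i
            · have h5 : b ≠ j := fun h => h2 ⟨h4, h⟩
              simp [h5]
            · simp [h4]
          have e2 : (if a = j then (if b = i then F j i else 0) else 0) = 0 := by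
            by_cases h4 : a = j
            · have h5 : b ≠ i := fun h => h3 ⟨h4, h⟩
              simp [h5]
            · simp [h4]
          rw [e1, e2]
          simp [h1, h2, h3]
  conv_lhs => rw [Finset.sum_congr rfl fun a _ => Finset.sum_congr rfl fun b _ => h a b]
  simp_rw [Finset.sum_add_distrib]
  simp only [Finset.sum_ite_eq', Finset.mem_univ, if_true, Finset.sum_ite_irrel,
    Finset.sum_const_zero]

/-- the interaction outside of the pair -/
noncomputable def rs (i j : Fin N) (k : Fin N → Fin N → ℝ) : ℝ :=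
  (N : ℝ)⁻¹ * ∑ a, ∑ b, if a = b ∨ (a = i ∧ b = j) ∨ (a = j ∧ b = i) then 0 else k a b

lemma rs_nonneg (i j : Fin N) (k : Fin N → Fin N → ℝ) (hk : ∀ a b, 0 ≤ k a b) :
    0 ≤ rs i j k := by
  unfold rs
  refine mul_nonneg (by positivity) (Finset.sum_nonneg fun a _ => Finset.sum_nonneg fun b _ => ?_)
  split_ifs
  · exact le_refl 0
  · exact hk a b

/-- derivative of a linear combination -/
lemma comb (i j : Fin N) (hij : i ≠ j) (k : Fin N → Fin N → ℝ) (hk : ∀ a b, k a b = k b a)
    (hk0 : ∀ a b, 0 ≤ k a b) (w y : Fin N → ℝ) (s : ℝ)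
    (hw : ∀ a b, ¬ (a = b ∨ (a = i ∧ b = j) ∨ (a = j ∧ b = i)) → |w a - w b| ≤ 1)
    (hy : ∀ a, |y a| ≤ s) :
    |(∑ a, w a * ((N : ℝ)⁻¹ * ∑ b, k a b * (y b - y a))) +
      (N : ℝ)⁻¹ * k i j * ((w i - w j) * (y i - y j))| ≤ rs i j k * s := by
  have h1 := split i j hij (fun a b => k a b * (w a - w b) * (y a - y b)) (by intro a; simp)
  rw [pairid k hk w y, h1]
  have h2 : -((N : ℝ)⁻¹ / 2) * (k i j * (w i - w j) * (y i - y j) + k j i * (w j - w i) * (y j - y i)
      + ∑ a, ∑ b, (if a = b ∨ (a = i ∧ b = j) ∨ (a = j ∧ b = i) then 0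
        else k a b * (w a - w b) * (y a - y b))) + (N : ℝ)⁻¹ * k i j * ((w i - w j) * (y i - y j)) =
      -((N : ℝ)⁻¹ / 2) * ∑ a, ∑ b, (if a = b ∨ (a = i ∧ b = j) ∨ (a = j ∧ b = i) then 0
        else k a b * (w a - w b) * (y a - y b)) := by
    rw [hk j i]
    ring
  show |-((N : ℝ)⁻¹ / 2) * (k i j * (w i - w j) * (y i - y j) + k j i * (w j - w i) * (y j - y i)
      + ∑ a, ∑ b, (if a = b ∨ (a = i ∧ b = j) ∨ (a = j ∧ b = i) then 0
        else k a b * (w a - w b) * (y a - y b))) +
        (N : ℝ)⁻¹ * k i j * ((w i - w j) * (y i - y j))| ≤ rs i j k * s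
  rw [h2, abs_mul, abs_neg, abs_of_nonneg (by positivity : (0 : ℝ) ≤ (N : ℝ)⁻¹ / 2)]
  have h3 : |∑ a, ∑ b, (if a = b ∨ (a = i ∧ b = j) ∨ (a = j ∧ b = i) then 0
        else k a b * (w a - w b) * (y a - y b))| ≤
      ∑ a, ∑ b, (if a = b ∨ (a = i ∧ b = j) ∨ (a = j ∧ b = i) then 0 else k a b) * (2 * s) := by
    refine (Finset.abs_sum_le_sum_abs _ _).trans (Finset.sum_le_sum fun a _ => ?_)
    refine (Finset.abs_sum_le_sum_abs _ _).trans (Finset.sum_le_sum fun b _ => ?_)
    split_ifs with h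
    · simp
    · rw [abs_mul, abs_mul, abs_of_nonneg (hk0 a b)]
      have e1 := hw a b h
      have e2 : |y a - y b| ≤ 2 * s := by
        refine (abs_sub _ _).trans ?_
        linarith [hy a, hy b]
      have e3 : k a b * |w a - w b| ≤ k a b := by
        have := mul_le_mul_of_nonneg_left e1 (hk0 a b)
        linarith
      exact mul_le_mul e3 e2 (abs_nonneg _) (hk0 a b)
  have h4 : ∑ a, ∑ b, (if a = b ∨ (a = i ∧ b = j) ∨ (a = j ∧ b = i) then 0 else k a b) * (2 * s) =
      (∑ a, ∑ b, if a = b ∨ (a = i ∧ b = j) ∨ (a = j ∧ b = i) then 0 else k a b) * (2 * s) := by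
    simp_rw [Finset.sum_mul]
  rw [h4] at h3
  calc (N : ℝ)⁻¹ / 2 * |∑ a, ∑ b, (if a = b ∨ (a = i ∧ b = j) ∨ (a = j ∧ b = i) then 0
        else k a b * (w a - w b) * (y a - y b))|
      ≤ (N : ℝ)⁻¹ / 2 * ((∑ a, ∑ b, if a = b ∨ (a = i ∧ b = j) ∨ (a = j ∧ b = i) then 0
        else k a b) * (2 * s)) := mul_le_mul_of_nonneg_left h3 (by positivity)
    _ = rs i j k * s := by
        unfold rs
        ring

/-- the weights `1` at `i`, `-1` at `j` -/
lemma exists_w (i j : Fin N) (hij : i ≠ j) : ∃ w : Fin N → ℝ, w i = 1 ∧ w j = -1 ∧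
    (∀ f : Fin N → ℝ, ∑ a, w a * f a = f i - f j) ∧
    ∀ a b, ¬ (a = b ∨ (a = i ∧ b = j) ∨ (a = j ∧ b = i)) → |w a - w b| ≤ 1 := by
  classical
  refine ⟨fun a => if a = i then (1 : ℝ) else if a = j then -1 else 0, by simp,
    by simp [hij.symm], ?_, ?_⟩
  · intro f
    have h6 : ∀ a, (if a = i then (1 : ℝ) else if a = j then -1 else 0) * f a =
        (if a = i then f a else 0) + (if a = j then -f a else 0) := by
      intro a
      by_cases ha : a = i
      · simp [ha, hij]
      · by_cases haj : a = j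
        · simp [haj, hij.symm]
        · simp [ha, haj]
    simp_rw [h6, Finset.sum_add_distrib]
    simp
    ring
  · intro a b hab
    push Not at hab
    obtain ⟨h1, h2, h3⟩ := hab
    by_cases hai : a = i
    · subst hai
      have hbj := h2 rfl
      have hba : b ≠ a := fun hb => h1 hb.symm
      simp [hba, hbj]
    · by_cases haj : a = j
      · subst haj
        have hbi := h3 rfl
        have hba : b ≠ a := fun hb => h1 hb.symm
        simp [hai, hba, hbi]
      · by_cases hbi : b = i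
        · simp [hai, haj, hbi]
        · by_cases hbj : b = j
          · simp [hai, haj, hbj, hij.symm]
          · simp [hai, haj, hbi, hbj]

/-- the abstract system -/
structure Sys (i j : Fin N) (k : ℝ → Fin N → Fin N → ℝ) (y : ℝ → Fin N → ℝ) (R B : ℝ → ℝ)
    (A : ℝ) : Prop where
  ne : i ≠ j
  sym : ∀ t a b, k t a b = k t b a
  nonneg : ∀ t a b, 0 ≤ k t a b
  dy : ∀ t, 0 < t → ∀ l, HasDerivAt (fun s => y s l) ((N : ℝ)⁻¹ * ∑ b, k t l b * (y t b - y t l)) t
  lim : ∀ l, Tendsto (fun t => y t l) atTop (𝓝 0)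
  dR : ∀ t, 0 < t → HasDerivAt R (rs i j (k t)) t
  dB : ∀ t, 0 < t → HasDerivAt B (2 * (N : ℝ)⁻¹ * k t i j) t
  bd : ∀ t, 0 < t → R t ≤ A

namespace Sys

variable {i j : Fin N} {k : ℝ → Fin N → Fin N → ℝ} {y : ℝ → Fin N → ℝ} {R B : ℝ → ℝ} {A : ℝ}

/-- the sum of the squares -/
def X (y : ℝ → Fin N → ℝ) (t : ℝ) : ℝ := ∑ l, y t l ^ 2

lemma X_nonneg (t : ℝ) : 0 ≤ X y t := Finset.sum_nonneg fun _ _ => sq_nonneg _

lemma abs_le_X (t : ℝ) (l : Fin N) : |y t l| ≤ Real.sqrt (X y t) := by
  rw [← Real.sqrt_sq_eq_abs]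
  exact Real.sqrt_le_sqrt (Finset.single_le_sum (f := fun l => y t l ^ 2)
    (fun _ _ => sq_nonneg _) (Finset.mem_univ l))

lemma dw (h : Sys i j k y R B A) (w : Fin N → ℝ) (t : ℝ) (ht : 0 < t) :
    HasDerivAt (fun s => ∑ a, w a * y s a)
      (∑ a, w a * ((N : ℝ)⁻¹ * ∑ b, k t a b * (y t b - y t a))) t :=
  HasDerivAt.fun_sum fun a _ => (h.dy t ht a).const_mul (w a)

lemma dX (h : Sys i j k y R B A) (t : ℝ) (ht : 0 < t) :
    ∃ d ≤ 0, HasDerivAt (X y) d t := by
  refine ⟨_, ?_, HasDerivAt.fun_sum fun a _ => (h.dy t ht a).pow 2⟩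
  have h1 : ∑ a, (2 : ℕ) * y t a ^ (2 - 1) * ((N : ℝ)⁻¹ * ∑ b, k t a b * (y t b - y t a)) =
      2 * ∑ a, y t a * ((N : ℝ)⁻¹ * ∑ b, k t a b * (y t b - y t a)) := by
    rw [Finset.mul_sum]
    refine Finset.sum_congr rfl fun a _ => ?_
    norm_num
    ring
  rw [h1, pairid (k t) (h.sym t) (y t) (y t)]
  have h2 : 0 ≤ ∑ a, ∑ b, k t a b * (y t a - y t b) * (y t a - y t b) := by
    refine Finset.sum_nonneg fun a _ => Finset.sum_nonneg fun b _ => ?_
    rw [mul_assoc]
    exact mul_nonneg (h.nonneg t a b) (mul_self_nonneg _)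
  have h3 : (0 : ℝ) ≤ (N : ℝ)⁻¹ := by positivity
  nlinarith [mul_nonneg h3 h2]

lemma X_anti (h : Sys i j k y R B A) (s t : ℝ) (hs : 0 < s) (hst : s ≤ t) : X y t ≤ X y s := by
  have hd : ∀ u, 0 < u → HasDerivAt (X y) (deriv (X y) u) u := fun u hu => by
    obtain ⟨d, _, hd⟩ := h.dX u hu
    exact hd.differentiableAt.hasDerivAt
  have h1 : AntitoneOn (X y) (Ici s) := by
    apply antitoneOn_of_deriv_nonpos (convex_Ici s)
    · exact fun u hu => (hd u (lt_of_lt_of_le hs hu)).continuousAt.continuousWithinAt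
    · intro u hu
      rw [interior_Ici] at hu
      exact (hd u (lt_trans hs hu)).differentiableAt.differentiableWithinAt
    · intro u hu
      rw [interior_Ici] at hu
      obtain ⟨d, hd0, hd⟩ := h.dX u (lt_trans hs hu)
      rw [hd.deriv]
      exact hd0
  exact h1 self_mem_Ici hst hst

/-- a function whose derivative is bounded by `q` times the derivative of `R` -/
lemma osc (h : Sys i j k y R B A) (q : ℝ) (f f' : ℝ → ℝ) (s t : ℝ) (hs : 0 < s) (hst : s ≤ t)
    (hf : ∀ u, s ≤ u → HasDerivAt f (f' u) u) (hf' : ∀ u, s ≤ u → |f' u| ≤ rs i j (k u) * q) :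
    |f t - f s| ≤ q * (R t - R s) := by
  have m1 : MonotoneOn (fun u => q * R u - f u) (Ici s) := by
    have hd : ∀ u, s ≤ u → HasDerivAt (fun u => q * R u - f u) (q * rs i j (k u) - f' u) u :=
      fun u hu => ((h.dR u (lt_of_lt_of_le hs hu)).const_mul q).sub (hf u hu)
    apply monotoneOn_of_deriv_nonneg (convex_Ici s)
    · exact fun u hu => (hd u hu).continuousAt.continuousWithinAt
    · intro u hu
      rw [interior_Ici] at hu
      exact (hd u (le_of_lt hu)).differentiableAt.differentiableWithinAt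
    · intro u hu
      rw [interior_Ici] at hu
      rw [(hd u (le_of_lt hu)).deriv]
      have := (abs_le.1 (hf' u (le_of_lt hu))).2
      linarith
  have m2 : MonotoneOn (fun u => q * R u + f u) (Ici s) := by
    have hd : ∀ u, s ≤ u → HasDerivAt (fun u => q * R u + f u) (q * rs i j (k u) + f' u) u :=
      fun u hu => ((h.dR u (lt_of_lt_of_le hs hu)).const_mul q).add (hf u hu)
    apply monotoneOn_of_deriv_nonneg (convex_Ici s)
    · exact fun u hu => (hd u hu).continuousAt.continuousWithinAt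
    · intro u hu
      rw [interior_Ici] at hu
      exact (hd u (le_of_lt hu)).differentiableAt.differentiableWithinAt
    · intro u hu
      rw [interior_Ici] at hu
      rw [(hd u (le_of_lt hu)).deriv]
      have := (abs_le.1 (hf' u (le_of_lt hu))).1
      linarith
  have e1 := m1 self_mem_Ici hst hst
  have e2 := m2 self_mem_Ici hst hst
  simp only at e1 e2
  rw [abs_le]
  constructor <;> linarith

/-- the limit of `R` -/
lemma limR (h : Sys i j k y R B A) : ∃ L : ℝ, Tendsto R atTop (𝓝 L) ∧ (∀ t, 1 ≤ t → R t ≤ L) := by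
  have hm : MonotoneOn R (Ici 1) := by
    apply monotoneOn_of_deriv_nonneg (convex_Ici 1)
    · exact fun u hu => (h.dR u (lt_of_lt_of_le one_pos hu)).continuousAt.continuousWithinAt
    · intro u hu
      rw [interior_Ici] at hu
      exact (h.dR u (lt_trans one_pos hu)).differentiableAt.differentiableWithinAt
    · intro u hu
      rw [interior_Ici] at hu
      rw [(h.dR u (lt_trans one_pos hu)).deriv]
      exact rs_nonneg i j (k u) (h.nonneg u)
  have hm' : Monotone (fun t => R (max t 1)) := fun s t hst =>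
    hm (le_max_right s 1) (le_max_right t 1) (max_le_max hst le_rfl)
  have hb : BddAbove (range (fun t => R (max t 1))) := by
    refine ⟨A, ?_⟩
    rintro _ ⟨t, rfl⟩
    exact h.bd _ (lt_of_lt_of_le one_pos (le_max_right t 1))
  refine ⟨⨆ t, R (max t 1), ?_, ?_⟩
  · refine (tendsto_atTop_ciSup hm' hb).congr' ?_
    filter_upwards [eventually_ge_atTop (1 : ℝ)] with t ht
    rw [max_eq_left ht]
  · intro t ht
    have := le_ciSup hb t
    simp only [max_eq_left ht] at this
    exact this

/-- combinations with equal weights at `i`, `j` -/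
lemma small (h : Sys i j k y R B A) (L : ℝ) (hL : ∀ t, 1 ≤ t → R t ≤ L) (w : Fin N → ℝ)
    (hw : ∀ a b, |w a - w b| ≤ 1) (hwij : w i = w j) (t : ℝ) (ht : 1 ≤ t) :
    |∑ a, w a * y t a| ≤ Real.sqrt (X y t) * (L - R t) := by
  have ht0 : (0 : ℝ) < t := lt_of_lt_of_le one_pos ht
  have h1 : ∀ T, t ≤ T → |(∑ a, w a * y T a) - ∑ a, w a * y t a| ≤
      Real.sqrt (X y t) * (L - R t) := by
    intro T hT
    have h2 := h.osc (Real.sqrt (X y t)) (fun s => ∑ a, w a * y s a)
      (fun u => ∑ a, w a * ((N : ℝ)⁻¹ * ∑ b, k u a b * (y u b - y u a))) t T ht0 hT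
      (fun u hu => h.dw w u (lt_of_lt_of_le ht0 hu)) ?_
    · refine h2.trans (mul_le_mul_of_nonneg_left ?_ (Real.sqrt_nonneg _))
      linarith [hL T (ht.trans hT)]
    · intro u hu
      have h3 := comb i j h.ne (k u) (h.sym u) (h.nonneg u) w (y u) (Real.sqrt (X y t))
        (fun a b _ => hw a b) (fun a => (abs_le_X u a).trans
          (Real.sqrt_le_sqrt (h.X_anti t u ht0 hu)))
      rw [hwij] at h3
      simpa using h3
  have h4 : Tendsto (fun T => |(∑ a, w a * y T a) - ∑ a, w a * y t a|) atTop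
      (𝓝 |(∑ a, w a * 0) - ∑ a, w a * y t a|) :=
    ((tendsto_finsetSum _ fun a _ => (h.lim a).const_mul (w a)).sub_const _).abs
  have h5 : |(∑ a, w a * 0) - ∑ a, w a * y t a| ≤ Real.sqrt (X y t) * (L - R t) := by
    refine le_of_tendsto h4 ?_
    filter_upwards [eventually_ge_atTop t] with T hT
    exact h1 T hT
  simpa using h5

/-- the main estimate -/
lemma main (h : Sys i j k y R B A) : ∃ A' T₀ : ℝ, ∀ t, T₀ ≤ t → ∀ l l', |y t l - y t l'| ≤
    A' * Real.exp (-B t) := by
  classical
  obtain ⟨L, hLt, hL⟩ := h.limR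
  -- the time
  have hG : Tendsto (fun t => ((N : ℝ) + 1) * (L - R t) ^ 2) atTop (𝓝 0) := by
    have := ((hLt.const_sub L).pow 2).const_mul ((N : ℝ) + 1)
    simpa using this
  obtain ⟨T₁, hT₁⟩ := eventually_atTop.1 (hG.eventually (gt_mem_nhds (by norm_num : (0 : ℝ) < 1 / 2)))
  set T₀ := max T₁ 1 with hT₀
  have hT₀1 : 1 ≤ T₀ := le_max_right _ _
  -- the difference dominates
  have hXD : ∀ t, T₀ ≤ t → X y t ≤ (y t i - y t j) ^ 2 := by
    intro t ht
    have ht1 : 1 ≤ t := hT₀1.trans ht
    have hg0 : 0 ≤ L - R t := by linarith [hL t ht1]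
    set g := L - R t with hg
    have hg2 : ((N : ℝ) + 1) * g ^ 2 < 1 / 2 := hT₁ t ((le_max_left _ _).trans ht)
    have hX0 : 0 ≤ X y t := X_nonneg t
    have hsq : Real.sqrt (X y t) ^ 2 = X y t := Real.sq_sqrt hX0
    -- single components
    have h1 : ∀ l, l ≠ i → l ≠ j → y t l ^ 2 ≤ g ^ 2 * X y t := by
      intro l hli hlj
      have h2 := h.small L hL (fun a => if a = l then 1 else 0) (by
        intro a b
        by_cases ha : a = l <;> by_cases hb : b = l <;> simp [ha, hb]) (by
        simp [Ne.symm hli, Ne.symm hlj]) t ht1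
      simp only [ite_mul, one_mul, zero_mul, Finset.sum_ite_eq', Finset.mem_univ, if_true] at h2
      have h3 := pow_le_pow_left₀ (abs_nonneg _) h2 2
      rw [sq_abs, mul_pow, hsq] at h3
      linarith
    -- the sum
    have h4 : (y t i + y t j) ^ 2 ≤ g ^ 2 * X y t := by
      have h2 := h.small L hL (fun a => if a = i ∨ a = j then 1 else 0) (by
        intro a b
        by_cases ha : a = i ∨ a = j <;> by_cases hb : b = i ∨ b = j <;> simp [ha, hb]) (by
        simp) t ht1
      have h5 : ∑ a, (if a = i ∨ a = j then (1 : ℝ) else 0) * y t a = y t i + y t j := by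
        have h6 : ∀ a, (if a = i ∨ a = j then (1 : ℝ) else 0) * y t a =
            (if a = i then y t a else 0) + (if a = j then y t a else 0) := by
          intro a
          by_cases ha : a = i
          · have haj : a ≠ j := fun hj => h.ne (ha.symm.trans hj)
            simp [ha, h.ne]
          · by_cases haj : a = j
            · simp [haj, h.ne.symm]
            · simp [ha, haj]
        simp_rw [h6, Finset.sum_add_distrib]
        simp
      rw [h5] at h2
      have h3 := pow_le_pow_left₀ (abs_nonneg _) h2 2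
      rw [sq_abs, mul_pow, hsq] at h3
      linarith
    have h7 : X y t ≤ y t i ^ 2 + y t j ^ 2 + (N : ℝ) * (g ^ 2 * X y t) := by
      have h8 : X y t ≤ ∑ l, ((if l = i then y t i ^ 2 else 0) + (if l = j then y t j ^ 2 else 0) +
          g ^ 2 * X y t) := by
        refine Finset.sum_le_sum fun l _ => ?_
        have hn : 0 ≤ g ^ 2 * X y t := mul_nonneg (sq_nonneg g) hX0
        by_cases hli : l = i
        · subst hli
          have : 0 ≤ (if l = j then y t j ^ 2 else 0) := by split_ifs <;> positivity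
          rw [if_pos rfl]
          linarith
        · by_cases hlj : l = j
          · subst hlj
            have : 0 ≤ (if l = i then y t i ^ 2 else 0) := by split_ifs <;> positivity
            rw [if_pos rfl]
            linarith
          · rw [if_neg hli, if_neg hlj]
            linarith [h1 l hli hlj]
      refine h8.trans (le_of_eq ?_)
      rw [Finset.sum_add_distrib, Finset.sum_add_distrib]
      simp
    have h9 : y t i ^ 2 + y t j ^ 2 = ((y t i + y t j) ^ 2 + (y t i - y t j) ^ 2) / 2 := by ring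
    have h10 : ((N : ℝ) + 1) * g ^ 2 * X y t ≤ 1 / 2 * X y t :=
      mul_le_mul_of_nonneg_right hg2.le hX0
    nlinarith
  -- decay of the difference
  obtain ⟨w, hwi, hwj, hws, hwab⟩ := exists_w i j h.ne
  set D : ℝ → ℝ := fun t => y t i - y t j with hD
  have hdD : ∀ t, 0 < t → HasDerivAt D (∑ a, w a *
      ((N : ℝ)⁻¹ * ∑ b, k t a b * (y t b - y t a))) t := by
    intro t ht
    exact (h.dw w t ht).congr_of_eventuallyEq (Eventually.of_forall fun s => (hws (y s)).symm)
  have hDest : ∀ t, T₀ ≤ t → |(∑ a, w a *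
      ((N : ℝ)⁻¹ * ∑ b, k t a b * (y t b - y t a))) + 2 * (N : ℝ)⁻¹ * k t i j * D t| ≤
      rs i j (k t) * |D t| := by
    intro t ht
    have h1 := comb i j h.ne (k t) (h.sym t) (h.nonneg t) w (y t) (Real.sqrt (X y t)) hwab
      (fun a => abs_le_X t a)
    have h2 : Real.sqrt (X y t) ≤ |D t| := by
      rw [← Real.sqrt_sq_eq_abs]
      exact Real.sqrt_le_sqrt (hXD t ht)
    rw [hwi, hwj] at h1
    have h4 : (N : ℝ)⁻¹ * k t i j * ((1 - -1) * (y t i - y t j)) = 2 * (N : ℝ)⁻¹ * k t i j * D t := by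
      show _ = 2 * (N : ℝ)⁻¹ * k t i j * (y t i - y t j)
      ring
    rw [h4] at h1
    exact h1.trans (mul_le_mul_of_nonneg_left h2 (rs_nonneg i j (k t) (h.nonneg t)))
  have hT₀0 : 0 < T₀ := lt_of_lt_of_le one_pos hT₀1
  have hW : AntitoneOn (fun t => D t ^ 2 * Real.exp (2 * B t - 2 * R t)) (Ici T₀) := by
    have hd : ∀ t, T₀ ≤ t → ∃ d ≤ 0, HasDerivAt (fun t => D t ^ 2 * Real.exp (2 * B t - 2 * R t)) d t := by
      intro t ht
      have ht0 : 0 < t := lt_of_lt_of_le hT₀0 ht
      have e1 := ((hdD t ht0).pow 2).mul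
        ((((h.dB t ht0).const_mul 2).sub ((h.dR t ht0).const_mul 2)).exp)
      refine ⟨_, ?_, e1⟩
      set E := ∑ a, w a * ((N : ℝ)⁻¹ * ∑ b, k t a b * (y t b - y t a)) with hE
      have e2 := hDest t ht
      rw [← hE] at e2
      set β := 2 * (N : ℝ)⁻¹ * k t i j with hβ
      set ρ := rs i j (k t) with hρ
      have e3 : D t * (E + β * D t) ≤ ρ * D t ^ 2 := by
        calc D t * (E + β * D t) ≤ |D t * (E + β * D t)| := le_abs_self _
          _ = |D t| * |E + β * D t| := abs_mul _ _
          _ ≤ |D t| * (ρ * |D t|) := mul_le_mul_of_nonneg_left e2 (abs_nonneg _)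
          _ = ρ * D t ^ 2 := by rw [← sq_abs (D t)]; ring
      have e4 : 0 < Real.exp (2 * B t - 2 * R t) := Real.exp_pos _
      have e5 : (2 : ℕ) * D t ^ (2 - 1) * E * Real.exp (2 * B t - 2 * R t) +
          D t ^ 2 * (Real.exp (2 * B t - 2 * R t) * (2 * β - 2 * ρ)) =
          2 * Real.exp (2 * B t - 2 * R t) * (D t * (E + β * D t) - ρ * D t ^ 2) := by
        norm_num
        ring
      show ((2 : ℕ) : ℝ) * D t ^ (2 - 1) * E * Real.exp (2 * B t - 2 * R t) +
          D t ^ 2 * (Real.exp (2 * B t - 2 * R t) * (2 * β - 2 * ρ)) ≤ 0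
      rw [e5]
      exact mul_nonpos_of_nonneg_of_nonpos (by positivity) (by linarith)
    apply antitoneOn_of_deriv_nonpos (convex_Ici T₀)
    · intro t ht
      obtain ⟨d, _, hd⟩ := hd t ht
      exact hd.continuousAt.continuousWithinAt
    · intro t ht
      rw [interior_Ici] at ht
      obtain ⟨d, _, hd⟩ := hd t (le_of_lt ht)
      exact hd.differentiableAt.differentiableWithinAt
    · intro t ht
      rw [interior_Ici] at ht
      obtain ⟨d, hd0, hd⟩ := hd t (le_of_lt ht)
      rw [hd.deriv]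
      exact hd0
  set K := D T₀ ^ 2 * Real.exp (2 * B T₀ - 2 * R T₀) with hK
  have hK0 : 0 ≤ K := by positivity
  refine ⟨2 * (Real.sqrt K * Real.exp L), T₀, fun t ht l l' => ?_⟩
  have h1 : D t ^ 2 * Real.exp (2 * B t - 2 * R t) ≤ K := hW self_mem_Ici ht ht
  have h2 : D t ^ 2 ≤ K * Real.exp (2 * R t - 2 * B t) := by
    have h3 : Real.exp (2 * B t - 2 * R t) * Real.exp (2 * R t - 2 * B t) = 1 := by
      rw [← Real.exp_add]
      simp
    calc D t ^ 2 = D t ^ 2 * Real.exp (2 * B t - 2 * R t) * Real.exp (2 * R t - 2 * B t) := by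
          rw [mul_assoc, h3, mul_one]
      _ ≤ K * Real.exp (2 * R t - 2 * B t) := mul_le_mul_of_nonneg_right h1 (Real.exp_pos _).le
  have h3 : |D t| ≤ Real.sqrt K * Real.exp L * Real.exp (-B t) := by
    have h4 : (Real.sqrt K * Real.exp L * Real.exp (-B t)) ^ 2 =
        K * Real.exp (2 * L - 2 * B t) := by
      rw [mul_pow, mul_pow, Real.sq_sqrt hK0, mul_assoc, ← Real.exp_nat_mul, ← Real.exp_nat_mul,
        ← Real.exp_add]
      congr 2
      push_cast
      ring
    have h5 : D t ^ 2 ≤ (Real.sqrt K * Real.exp L * Real.exp (-B t)) ^ 2 := by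
      rw [h4]
      refine h2.trans (mul_le_mul_of_nonneg_left (Real.exp_le_exp.2 ?_) hK0)
      linarith [hL t (hT₀1.trans ht)]
    exact abs_le_of_sq_le_sq h5 (by positivity)
  have h6 : Real.sqrt (X y t) ≤ |D t| := by
    rw [← Real.sqrt_sq_eq_abs]
    exact Real.sqrt_le_sqrt (hXD t ht)
  have h7 := (abs_le_X (y := y) t l).trans h6
  have h8 := (abs_le_X (y := y) t l').trans h6
  calc |y t l - y t l'| ≤ |y t l| + |y t l'| := abs_sub _ _
    _ ≤ 2 * |D t| := by linarith
    _ ≤ 2 * (Real.sqrt K * Real.exp L) * Real.exp (-B t) := by linarith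

end Sys

/-- the fundamental theorem for functions which are continuous on the half line -/
lemma ftc (f : ℝ → ℝ) (hf : ContinuousOn f (Ici 0)) (t : ℝ) (ht : 0 < t) :
    HasDerivAt (fun T => ∫ s in (0 : ℝ)..T, f s) (f t) t := by
  have h1 : IntervalIntegrable f volume 0 t := by
    apply ContinuousOn.intervalIntegrable
    rw [uIcc_of_le ht.le]
    exact hf.mono Icc_subset_Ici_self
  have h2 : ContinuousOn f (Ioi 0) := hf.mono Ioi_subset_Ici_self
  exact intervalIntegral.integral_hasDerivAt_right h1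
    (h2.stronglyMeasurableAtFilter isOpen_Ioi t ht) (h2.continuousAt (Ioi_mem_nhds ht))

end I_ESTX

theorem I_EST : EST := by
  intro n N Φ hΦ x v hfl c hc i j hij hrest e he
  obtain ⟨A, hA⟩ := hrest
  have hxc : ContinuousOn x (Ici 0) := fun t ht => (hfl t ht).1.continuousWithinAt
  have hxl : ∀ l, ContinuousOn (fun t => x t l) (Ici 0) := fun l =>
    (continuous_apply l).comp_continuousOn hxc
  have hΦc : Continuous Φ := hΦ.smooth.continuous
  have hΦx : ∀ a b, ContinuousOn (fun t => Φ (x t a - x t b)) (Ici 0) := fun a b =>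
    hΦc.comp_continuousOn ((hxl a).sub (hxl b))
  have hsym : ∀ t a b, Φ (x t a - x t b) = Φ (x t b - x t a) := by
    intro t a b
    rw [← hΦ.even (x t b - x t a), neg_sub]
  have hrc : ContinuousOn (fun t => rest Φ i j (x t, v t)) (Ici 0) := by
    unfold rest
    refine continuousOn_const.mul (continuousOn_finsetSum _ fun a _ => continuousOn_finsetSum _ fun b _ => ?_)
    by_cases hP : a = b ∨ (a = i ∧ b = j) ∨ (a = j ∧ b = i)
    · simp only [hP, if_true]
      exact continuousOn_const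
    · simp only [hP, if_false]
      exact hΦx a b
  have hbc : ContinuousOn (fun t => bond Φ i j (x t, v t)) (Ici 0) := by
    unfold bond
    exact continuousOn_const.mul (hΦx i j)
  have hsys : I_ESTX.Sys i j (fun t a b => Φ (x t a - x t b))
      (fun t l => inner ℝ e (v t l) - inner ℝ e (c i))
      (fun T => ∫ s in (0 : ℝ)..T, rest Φ i j (x s, v s))
      (clock Φ i j (fun s => (x s, v s))) A := by
    refine ⟨hij, hsym, fun t a b => hΦ.nonneg _, ?_, ?_, ?_, ?_, ?_⟩
    · intro t ht l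
      have h1 : HasDerivAt v (force Φ (x t, v t)) t :=
        (hfl t ht.le).2.hasDerivAt (Ici_mem_nhds ht)
      have h2 : HasDerivAt (fun s => v s l) (force Φ (x t, v t) l) t := (hasDerivAt_pi.1 h1) l
      have h3 : HasDerivAt (fun s => inner ℝ e (v s l)) (inner ℝ e (force Φ (x t, v t) l)) t := by
        have := (innerSL ℝ e).hasFDerivAt.comp_hasDerivAt t h2
        exact this
      have h4 : inner ℝ e (force Φ (x t, v t) l) = (N : ℝ)⁻¹ * ∑ b, Φ (x t l - x t b) *
          ((inner ℝ e (v t b) - inner ℝ e (c i)) - (inner ℝ e (v t l) - inner ℝ e (c i))) := by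
        simp only [force]
        rw [inner_smul_right, inner_sum]
        congr 1
        refine Finset.sum_congr rfl fun b _ => ?_
        rw [inner_smul_right, inner_sub_right]
        ring
      rw [← h4]
      exact h3.sub_const _
    · intro l
      have h1 : Tendsto (fun t => inner ℝ e (v t l) - inner ℝ e (c i)) atTop
          (𝓝 (inner ℝ e (c l) - inner ℝ e (c i))) :=
        ((tendsto_const_nhds.inner (hc l)).sub_const _)
      rw [he l i, sub_self] at h1
      exact h1
    · intro t ht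
      exact I_ESTX.ftc _ hrc t ht
    · intro t ht
      exact I_ESTX.ftc _ hbc t ht
    · intro t ht
      exact hA t ht.le
  obtain ⟨A', T₀, hA'⟩ := hsys.main
  refine ⟨A', T₀, fun t ht l l' => ?_⟩
  have h1 := hA' t ht l l'
  rw [inner_sub_right]
  have h2 : (inner ℝ e (v t l) - inner ℝ e (c i)) - (inner ℝ e (v t l') - inner ℝ e (c i)) =
      inner ℝ e (v t l) - inner ℝ e (v t l') := by ring
  rw [← h2]
  exact h1

end Pool.Agent.Work.MP_c9f990_an.Al
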