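import Pool.Agent.Work.MP_c9f990_an.Al.Stmts

set_option autoImplicit false

/-!
# MP_c9f990_an: the cut-off field is C^1 and globally Lipschitz
-/

open MeasureTheory Set Filter Topology
open scoped NNReal ENNReal

namespace Pool.Agent.Work.MP_c9f990_an.Al

namespace I_FLDX

variable {N n : ℕ}

lemma smul_lip {Q V : Type} [NormedAddCommGroup Q] [NormedAddCommGroup V] [NormedSpace ℝ V]
    (a : Q → ℝ) (h : Q → V) (A B La Lh : ℝ) (ha : ∀ x, |a x| ≤ A) (hh : ∀ x, ‖h x‖ ≤ B)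
    (hla : ∀ x y, |a x - a y| ≤ La * ‖x - y‖) (hlh : ∀ x y, ‖h x - h y‖ ≤ Lh * ‖x - y‖)
    (x y : Q) : ‖a x • h x - a y • h y‖ ≤ (A * Lh + La * B) * ‖x - y‖ := by
  have e : a x • h x - a y • h y = a x • (h x - h y) + (a x - a y) • h y := by
    rw [smul_sub, sub_smul]; abel
  rw [e]
  refine (norm_add_le _ _).trans ?_
  rw [norm_smul, norm_smul, Real.norm_eq_abs, Real.norm_eq_abs]
  have h1 : |a x| * ‖h x - h y‖ ≤ A * (Lh * ‖x - y‖) :=
    mul_le_mul (ha x) (hlh x y) (norm_nonneg _) ((abs_nonneg _).trans (ha x))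
  have h2 : |a x - a y| * ‖h y‖ ≤ (La * ‖x - y‖) * B :=
    mul_le_mul (hla x y) (hh y) (norm_nonneg _) ((abs_nonneg _).trans (hla x y))
  nlinarith

lemma contDiff_ke : ContDiff ℝ 1 (ke : C N n → ℝ) := by
  unfold ke
  apply ContDiff.sum
  intro i _
  apply ContDiff.norm_sq ℝ
  exact contDiff_apply ℝ (E n) i

lemma contDiff_chi (R : ℝ) : ContDiff ℝ 1 (chi R : C N n → ℝ) := by
  unfold chi
  exact Real.smoothTransition.contDiff.comp (contDiff_const.sub contDiff_ke)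

lemma chi_zero (R : ℝ) (v : C N n) (h : |R| + 3 < ‖v‖) : chi R v = 0 := by
  unfold chi
  apply Real.smoothTransition.zero_of_nonpos
  have h0 : 0 ≤ |R| + 3 := by positivity
  have h1 : ∃ i, |R| + 3 < ‖v i‖ := by
    by_contra hc
    push Not at hc
    have := (pi_norm_le_iff_of_nonneg h0).2 hc
    linarith
  obtain ⟨i, hi⟩ := h1
  have h2 : ‖v i‖ ^ 2 ≤ ke v := by
    unfold ke
    exact Finset.single_le_sum (f := fun j => ‖v j‖ ^ 2) (fun j _ => by positivity)
      (Finset.mem_univ i)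
  have h3 : |R| + 3 ≤ ‖v i‖ ^ 2 := by
    have : 0 ≤ |R| := abs_nonneg R
    nlinarith
  have h4 := le_abs_self R
  linarith

/-- the cut-off differences of velocities -/
noncomputable def hh (R : ℝ) (i j : Fin N) (v : C N n) : E n := chi R v • (v j - v i)

lemma contDiff_hh (R : ℝ) (i j : Fin N) : ContDiff ℝ 1 (hh R i j : C N n → E n) := by
  unfold hh
  exact (contDiff_chi R).smul ((contDiff_apply ℝ (E n) j).sub (contDiff_apply ℝ (E n) i))

lemma supp_hh (R : ℝ) (i j : Fin N) : HasCompactSupport (hh R i j : C N n → E n) := by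
  apply HasCompactSupport.intro (isCompact_closedBall (0 : C N n) (|R| + 3))
  intro v hv
  rw [mem_closedBall_zero_iff, not_le] at hv
  unfold hh
  rw [chi_zero R v hv, zero_smul]

lemma hh_bound (R : ℝ) (i j : Fin N) : ∃ B : ℝ, ∀ v : C N n, ‖hh R i j v‖ ≤ B :=
  (contDiff_hh R i j).continuous.bounded_above_of_compact_support (supp_hh R i j)

lemma hh_lip (R : ℝ) (i j : Fin N) : ∃ L : ℝ≥0, LipschitzWith L (hh R i j : C N n → E n) :=
  ContDiff.lipschitzWith_of_hasCompactSupport (supp_hh R i j) (contDiff_hh R i j) one_ne_zero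

lemma contDiff_force (Φ : E n → ℝ) (hΦ : Kernel Φ) : ContDiff ℝ 1 (force Φ : P N n → C N n) := by
  unfold force
  rw [contDiff_pi]
  intro i
  apply ContDiff.const_smul
  apply ContDiff.sum
  intro j _
  have h1 : ∀ k : Fin N, ContDiff ℝ 1 (fun z : P N n => z.1 k) := fun k =>
    (contDiff_apply ℝ (E n) k).comp contDiff_fst
  have h2 : ∀ k : Fin N, ContDiff ℝ 1 (fun z : P N n => z.2 k) := fun k =>
    (contDiff_apply ℝ (E n) k).comp contDiff_snd
  exact (hΦ.smooth.comp ((h1 i).sub (h1 j))).smul ((h2 j).sub (h2 i))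

lemma contDiff_fld (Φ : E n → ℝ) (R : ℝ) (hΦ : Kernel Φ) :
    ContDiff ℝ 1 (fld Φ R : P N n → P N n) := by
  unfold fld
  apply ContDiff.prodMk contDiff_snd
  exact ((contDiff_chi R).comp contDiff_snd).smul (contDiff_force Φ hΦ)

lemma norm_pair_le (z w : P N n) (i j : Fin N) :
    ‖(z.1 i - z.1 j) - (w.1 i - w.1 j)‖ ≤ 2 * ‖z - w‖ := by
  have e : (z.1 i - z.1 j) - (w.1 i - w.1 j) = (z - w).1 i - (z - w).1 j := by
    simp only [Prod.fst_sub, Pi.sub_apply]; abel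
  rw [e]
  refine (norm_sub_le _ _).trans ?_
  have h1 : ‖(z - w).1 i‖ ≤ ‖z - w‖ := (norm_le_pi_norm _ i).trans (norm_fst_le _)
  have h2 : ‖(z - w).1 j‖ ≤ ‖z - w‖ := (norm_le_pi_norm _ j).trans (norm_fst_le _)
  linarith

end I_FLDX

open I_FLDX in
theorem I_FLD (hP : PERB) : FLD := by
  intro n N Φ R hΦ
  refine ⟨contDiff_fld Φ R hΦ, ?_⟩
  obtain ⟨A, hA⟩ := hP n Φ hΦ
  have hA0 : 0 ≤ A := (abs_nonneg _).trans (hA 0).1
  have hlip : ∀ x y : E n, |Φ x - Φ y| ≤ A * ‖x - y‖ := by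
    intro x y
    have h1 : LipschitzWith (Real.toNNReal A) Φ := by
      apply lipschitzWith_of_nnnorm_fderiv_le (𝕜 := ℝ) (hΦ.smooth.differentiable one_ne_zero)
      intro x
      rw [← NNReal.coe_le_coe, coe_nnnorm, Real.coe_toNNReal _ hA0]
      exact (hA x).2
    have h2 := h1.dist_le_mul x y
    rw [Real.dist_eq, dist_eq_norm, Real.coe_toNNReal _ hA0] at h2
    exact h2
  choose B hB using fun p : Fin N × Fin N => hh_bound (n := n) R p.1 p.2
  choose L hL using fun p : Fin N × Fin N => hh_lip (n := n) R p.1 p.2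
  -- the constants
  have key : ∀ (i j : Fin N) (z w : P N n), ‖Φ (z.1 i - z.1 j) • hh R i j z.2 -
      Φ (w.1 i - w.1 j) • hh R i j w.2‖ ≤ (A * L (i, j) + (A * 2) * B (i, j)) * ‖z - w‖ := by
    intro i j z w
    refine smul_lip (fun z : P N n => Φ (z.1 i - z.1 j)) (fun z : P N n => hh R i j z.2) A
      (B (i, j)) (A * 2) (L (i, j)) (fun x => (hA _).1) (fun x => hB (i, j) x.2) ?_ ?_ z w
    · intro x y
      refine (hlip _ _).trans ?_
      rw [mul_assoc]
      exact mul_le_mul_of_nonneg_left (norm_pair_le x y i j) hA0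
    · intro x y
      have h1 := (hL (i, j)).dist_le_mul x.2 y.2
      rw [dist_eq_norm, dist_eq_norm] at h1
      refine h1.trans ?_
      apply mul_le_mul_of_nonneg_left _ (by positivity)
      exact norm_snd_le (x - y)
  have hB0 : ∀ p, 0 ≤ B p := fun p => (norm_nonneg _).trans (hB p 0)
  set K : ℝ := 1 + ∑ p : Fin N × Fin N, |(N : ℝ)⁻¹| * (A * L p + (A * 2) * B p) with hK
  have hp0 : ∀ p : Fin N × Fin N, 0 ≤ |(N : ℝ)⁻¹| * (A * L p + (A * 2) * B p) := by
    intro p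
    have := hB0 p
    positivity
  have hK1 : 1 ≤ K := by
    have : 0 ≤ ∑ p : Fin N × Fin N, |(N : ℝ)⁻¹| * (A * L p + (A * 2) * B p) :=
      Finset.sum_nonneg fun p _ => hp0 p
    linarith
  refine ⟨Real.toNNReal K, LipschitzWith.of_dist_le' ?_⟩
  intro z w
  rw [dist_eq_norm, dist_eq_norm, Prod.norm_def]
  apply max_le
  · have h1 : ‖(fld Φ R z - fld Φ R w).1‖ ≤ ‖z - w‖ := norm_snd_le (z - w)
    have h2 : 0 ≤ ‖z - w‖ := norm_nonneg _
    nlinarith
  · rw [pi_norm_le_iff_of_nonneg (by positivity)]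
    intro i
    have e : (fld Φ R z - fld Φ R w).2 i = (N : ℝ)⁻¹ • ∑ j, (Φ (z.1 i - z.1 j) • hh R i j z.2 -
      Φ (w.1 i - w.1 j) • hh R i j w.2) := by
      have e1 : ∀ u : P N n, (fld Φ R u).2 i = (N : ℝ)⁻¹ • ∑ j, Φ (u.1 i - u.1 j) •
          hh R i j u.2 := by
        intro u
        unfold fld force hh
        simp only [Pi.smul_apply]
        rw [smul_comm, Finset.smul_sum]
        congr 1
        apply Finset.sum_congr rfl
        intro j _
        rw [smul_comm]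
      rw [Finset.sum_sub_distrib, smul_sub, ← e1, ← e1]
      rfl
    rw [e, norm_smul, Real.norm_eq_abs]
    have h1 : ‖∑ j, (Φ (z.1 i - z.1 j) • hh R i j z.2 - Φ (w.1 i - w.1 j) • hh R i j w.2)‖ ≤
        ∑ j, (A * L (i, j) + (A * 2) * B (i, j)) * ‖z - w‖ :=
      (norm_sum_le _ _).trans (Finset.sum_le_sum fun j _ => key i j z w)
    have h2 : |(N : ℝ)⁻¹| * ∑ j, (A * L (i, j) + (A * 2) * B (i, j)) * ‖z - w‖ =
        (∑ j, |(N : ℝ)⁻¹| * (A * L (i, j) + (A * 2) * B (i, j))) * ‖z - w‖ := by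
      rw [Finset.mul_sum, Finset.sum_mul]
      apply Finset.sum_congr rfl
      intro j _
      ring
    have h3 : ∑ j, |(N : ℝ)⁻¹| * (A * L (i, j) + (A * 2) * B (i, j)) ≤ K := by
      have h4 : ∑ j, |(N : ℝ)⁻¹| * (A * L (i, j) + (A * 2) * B (i, j)) ≤
          ∑ p : Fin N × Fin N, |(N : ℝ)⁻¹| * (A * L p + (A * 2) * B p) := by
        rw [Fintype.sum_prod_type]
        exact Finset.single_le_sum (f := fun i => ∑ j, |(N : ℝ)⁻¹| * (A * L (i, j) +
          (A * 2) * B (i, j))) (fun i _ => Finset.sum_nonneg fun j _ => hp0 (i, j))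
          (Finset.mem_univ i)
      linarith
    calc |(N : ℝ)⁻¹| * ‖∑ j, (Φ (z.1 i - z.1 j) • hh R i j z.2 -
          Φ (w.1 i - w.1 j) • hh R i j w.2)‖
        ≤ |(N : ℝ)⁻¹| * ∑ j, (A * L (i, j) + (A * 2) * B (i, j)) * ‖z - w‖ :=
          mul_le_mul_of_nonneg_left h1 (abs_nonneg _)
      _ = (∑ j, |(N : ℝ)⁻¹| * (A * L (i, j) + (A * 2) * B (i, j))) * ‖z - w‖ := h2
      _ ≤ K * ‖z - w‖ := mul_le_mul_of_nonneg_right h3 (norm_nonneg _)

end Pool.Agent.Work.MP_c9f990_an.Al
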