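import Pool.Agent.Work.MP_c9f990_an.Al.Stmts

set_option autoImplicit false

/-!
# MP_c9f990_an: persistent contact between groups of clusters
-/

open MeasureTheory Set Filter Topology
open scoped NNReal ENNReal

namespace Pool.Agent.Work.MP_c9f990_an.Al

variable {N n : ℕ}

/-- third exceptional set: from time `T` on the agents of `Q` do not interact with the other
agents, and the component along `m` of `v_i - v_j` tends to `0` -/
def Bad3 (Φ : E n → ℝ) (φ : ℝ → P N n → P N n) (R : ℝ) (Q : Finset (Fin N)) (i j : Fin N)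
    (m : E n) (T : ℕ) : Set (P N n) :=
  {z | ke z.2 ≤ R ∧
    (∀ t, (T : ℝ) ≤ t → ∀ a ∈ Q, ∀ b ∉ Q, Φ ((φ t z).1 a - (φ t z).1 b) = 0) ∧
    Tendsto (fun t => inner ℝ m ((φ t z).2 i - (φ t z).2 j)) atTop (𝓝 0)}

/-- preimages of null sets under the flow are null -/
def NPRE : Prop := ∀ (Q : Type) [NormedAddCommGroup Q] [NormedSpace ℝ Q] [FiniteDimensional ℝ Q]
  [MeasurableSpace Q] [BorelSpace Q] (μ : Measure Q) [μ.IsAddHaarMeasure]
  (F : Q → Q) (φ : ℝ → Q → Q) (M : ℝ → Q → Q →L[ℝ] Q), IsFlow F φ M →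
  ∀ (t : ℝ) (A : Set Q), μ A = 0 → μ (φ t ⁻¹' A) = 0

/-- the third exceptional set is null -/
def NUL3 : Prop := ∀ (n N : ℕ) (Φ : E n → ℝ) (R : ℝ), Kernel Φ →
  ∀ (φ : ℝ → P N n → P N n) (M : ℝ → P N n → P N n →L[ℝ] P N n), IsFlow (fld Φ R) φ M →
  ∀ (Q : Finset (Fin N)) (i j : Fin N) (m : E n) (T : ℕ), i ∈ Q → j ∉ Q → m ≠ 0 →
  volume (Bad3 Φ φ R Q i j m T) = 0

end Pool.Agent.Work.MP_c9f990_an.Al
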