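import Pool.Agent.Work.MP_c9f990_an.Al.St3
import Pool.Agent.Work.MP_c9f990_an.Bd.B03

set_option autoImplicit false

/-!
# MP_c9f990_an, item NUL3: the third exceptional set is null
-/

open MeasureTheory Set Filter Topology
open scoped NNReal ENNReal

namespace Pool.Agent.Work.MP_c9f990_an.Al

namespace I_NUL3X

variable {N n : ℕ}

/-- the decoupled accelerations -/
noncomputable def dec (Φ : E n → ℝ) (Q : Finset (Fin N)) (z : P N n) : C N n :=
  fun a => (N : ℝ)⁻¹ • ∑ b, (if (a ∈ Q ↔ b ∈ Q) then Φ (z.1 a - z.1 b) • (z.2 b - z.2 a) else 0)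

/-- the decoupled field -/
noncomputable def G (Φ : E n → ℝ) (Q : Finset (Fin N)) (z : P N n) : P N n := (z.2, dec Φ Q z)

lemma G_contDiff (Φ : E n → ℝ) (hΦ : Kernel Φ) (Q : Finset (Fin N)) :
    ContDiff ℝ 1 (G (N := N) Φ Q) := by
  unfold G dec
  refine contDiff_snd.prodMk ?_
  rw [contDiff_pi]
  intro a
  refine ContDiff.const_smul _ (ContDiff.sum fun b _ => ?_)
  have p1 : ∀ l : Fin N, ContDiff ℝ 1 (fun z : P N n => z.1 l) := fun l =>
    (contDiff_apply ℝ (E n) l).comp contDiff_fst
  have p2 : ∀ l : Fin N, ContDiff ℝ 1 (fun z : P N n => z.2 l) := fun l =>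
    (contDiff_apply ℝ (E n) l).comp contDiff_snd
  split_ifs
  · exact (hΦ.smooth.comp ((p1 a).sub (p1 b))).smul ((p2 b).sub (p2 a))
  · exact contDiff_const

/-- the shift of the group `Q` -/
noncomputable def shf (Q : Finset (Fin N)) (m : E n) : C N n := fun a => if a ∈ Q then m else 0

lemma shf_eq (Q : Finset (Fin N)) (m : E n) (a b : Fin N) (h : a ∈ Q ↔ b ∈ Q) :
    shf Q m a = shf Q m b := by
  unfold shf
  by_cases hb : b ∈ Q
  · rw [if_pos (h.2 hb), if_pos hb]
  · rw [if_neg (fun ha => hb (h.1 ha)), if_neg hb]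

lemma dec_shift (Φ : E n → ℝ) (Q : Finset (Fin N)) (m : E n) (z : P N n) (r s : ℝ) :
    dec Φ Q (z.1 + r • shf Q m, z.2 + s • shf Q m) = dec Φ Q z := by
  funext a
  unfold dec
  congr 1
  refine Finset.sum_congr rfl fun b _ => ?_
  by_cases h : a ∈ Q ↔ b ∈ Q
  · rw [if_pos h, if_pos h]
    have e := shf_eq Q m a b h
    have e1 : (z.1 + r • shf Q m) a - (z.1 + r • shf Q m) b = z.1 a - z.1 b := by
      simp only [Pi.add_apply, Pi.smul_apply, e]
      abel
    have e2 : (z.2 + s • shf Q m) b - (z.2 + s • shf Q m) a = z.2 b - z.2 a := by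
      simp only [Pi.add_apply, Pi.smul_apply, e]
      abel
    simp only [e1, e2]
  · rw [if_neg h, if_neg h]

lemma force_dec (Φ : E n → ℝ) (hΦ : Kernel Φ) (Q : Finset (Fin N)) (z : P N n)
    (h : ∀ a ∈ Q, ∀ b ∉ Q, Φ (z.1 a - z.1 b) = 0) : force Φ z = dec Φ Q z := by
  funext a
  unfold force dec
  congr 1
  refine Finset.sum_congr rfl fun b _ => ?_
  by_cases hab : a ∈ Q ↔ b ∈ Q
  · rw [if_pos hab]
  · rw [if_neg hab]
    have h0 : Φ (z.1 a - z.1 b) = 0 := by
      by_cases ha : a ∈ Q
      · exact h a ha b (fun hb => hab ⟨fun _ => hb, fun _ => ha⟩)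
      · have hb : b ∈ Q := by
          by_contra hb
          exact hab ⟨fun h => absurd h ha, fun h => absurd h hb⟩
        rw [sym Φ hΦ]
        exact h b hb a ha
    rw [h0, zero_smul]

/-- uniqueness for the decoupled system -/
lemma G_unique (Φ : E n → ℝ) (hΦ : Kernel Φ) (Q : Finset (Fin N)) (y y' : ℝ → P N n)
    (hy : ∀ t, 0 ≤ t → HasDerivWithinAt y (G Φ Q (y t)) (Ici 0) t)
    (hy' : ∀ t, 0 ≤ t → HasDerivWithinAt y' (G Φ Q (y' t)) (Ici 0) t)
    (h0 : y 0 = y' 0) (T : ℝ) (hT : 0 ≤ T) : y T = y' T := by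
  have hc : ContinuousOn y (Icc 0 T) := fun t ht =>
    ((hy t ht.1).continuousWithinAt).mono Icc_subset_Ici_self
  have hc' : ContinuousOn y' (Icc 0 T) := fun t ht =>
    ((hy' t ht.1).continuousWithinAt).mono Icc_subset_Ici_self
  obtain ⟨r, hr⟩ := (isCompact_Icc.image_of_continuousOn hc).isBounded.subset_closedBall 0
  obtain ⟨r', hr'⟩ := (isCompact_Icc.image_of_continuousOn hc').isBounded.subset_closedBall 0
  obtain ⟨K, hK⟩ := ((G_contDiff Φ hΦ Q).contDiffOn (s := Metric.closedBall 0 (max r r'))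
    ).exists_lipschitzOnWith one_ne_zero (convex_closedBall _ _) (isCompact_closedBall _ _)
  have hIci : ∀ t, 0 ≤ t → Ici t ⊆ Ici (0 : ℝ) := fun t ht => Ici_subset_Ici.2 ht
  have h := ODE_solution_unique_of_mem_Icc_right (v := fun _ => G Φ Q)
    (s := fun _ => Metric.closedBall 0 (max r r')) (K := K) (f := y) (g := y') (a := 0) (b := T)
    (fun t _ => hK) hc (fun t ht => (hy t ht.1).mono (hIci t ht.1))
    (fun t ht => Metric.closedBall_subset_closedBall (le_max_left _ _)
      (hr ⟨t, ⟨ht.1, ht.2.le⟩, rfl⟩))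
    hc' (fun t ht => (hy' t ht.1).mono (hIci t ht.1))
    (fun t ht => Metric.closedBall_subset_closedBall (le_max_right _ _)
      (hr' ⟨t, ⟨ht.1, ht.2.le⟩, rfl⟩)) h0
  exact h ⟨hT, le_refl T⟩

/-- a measurable set which meets every line in the direction `e` in at most one point is null -/
lemma null_of_lines {Q : Type} [NormedAddCommGroup Q] [NormedSpace ℝ Q] [FiniteDimensional ℝ Q]
    [MeasurableSpace Q] [BorelSpace Q] (μ : Measure Q) [μ.IsAddHaarMeasure] (B : Set Q)
    (hB : MeasurableSet B) (e : Q) (h : ∀ z ∈ B, ∀ s : ℝ, z + s • e ∈ B → s = 0) : μ B = 0 := by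
  have : ProperSpace Q := FiniteDimensional.proper ℝ Q
  have : SecondCountableTopology Q := secondCountable_of_proper
  set ν : Measure ℝ := (volume : Measure ℝ).restrict (Icc 0 1) with hν
  set W : Set (Q × ℝ) := (fun p : Q × ℝ => p.1 + p.2 • e) ⁻¹' B with hW
  have hWm : MeasurableSet W := by
    refine MeasurableSet.preimage hB (Continuous.measurable ?_)
    fun_prop
  have h1 : μ.prod ν W = 0 := by
    rw [Measure.measure_prod_null hWm]
    refine Eventually.of_forall fun z => ?_
    have hs : (Prod.mk z ⁻¹' W).Subsingleton := by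
      intro s hs t ht
      have hs' : z + s • e ∈ B := hs
      have ht' : z + t • e ∈ B := ht
      have h2 := h _ hs' (t - s) (by
        have : z + s • e + (t - s) • e = z + t • e := by
          rw [sub_smul]
          abel
        rw [this]
        exact ht')
      linarith
    exact hs.measure_zero ν
  rw [Measure.prod_apply_symm hWm] at h1
  have h2 : ∀ s : ℝ, μ ((fun z => (z, s)) ⁻¹' W) = μ B := by
    intro s
    exact measure_preimage_add_right μ (s • e) B
  simp_rw [h2] at h1
  rw [lintegral_const, hν, Measure.restrict_apply MeasurableSet.univ, univ_inter, Real.volume_Icc]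
    at h1
  simpa using h1

end I_NUL3X

open I_NUL3X in
theorem I_NUL3 (hR : REP) (hN : NPRE) : NUL3 := by
  intro n N Φ R hΦ φ M hφ Q i j m T hi hj hm
  have hHaar : (volume : Measure (P N n)).IsAddHaarMeasure :=
    Measure.prod.instIsAddHaarMeasure (volume : Measure (C N n)) (volume : Measure (C N n))
  obtain ⟨hR1, hR2⟩ := hR n N Φ R hΦ φ M hφ
  -- reduction to `T = 0`
  have hred : Bad3 Φ φ R Q i j m T ⊆ φ T ⁻¹' (Bad3 Φ φ R Q i j m 0) := by
    rintro z ⟨h1, h2, h3⟩
    refine ⟨(hR1 z h1).1 T (Nat.cast_nonneg T), ?_, ?_⟩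
    · intro t ht a ha b hb
      rw [← hφ.add]
      refine h2 _ ?_ a ha b hb
      have : (0 : ℝ) ≤ t := by simpa using ht
      linarith
    · have h4 : Tendsto (fun t : ℝ => t + (T : ℝ)) atTop atTop :=
        tendsto_atTop_add_const_right _ _ tendsto_id
      have h5 := h3.comp h4
      refine h5.congr fun t => ?_
      simp only [Function.comp_apply]
      rw [hφ.add]
  refine measure_mono_null hred (hN (P N n) volume (fld Φ R) φ M hφ T _ ?_)
  -- continuity
  have hct : ∀ t : ℝ, Continuous (φ t) := fun t =>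
    hφ.cont.comp (Continuous.prodMk continuous_const continuous_id)
  set f : ℝ → P N n → ℝ := fun t z => inner ℝ m ((φ t z).2 i - (φ t z).2 j) with hf
  have hfc : ∀ t, Continuous (f t) := by
    intro t
    have h1 := hct t
    simp only [hf]
    fun_prop
  -- measurability
  have hmeas : MeasurableSet (Bad3 Φ φ R Q i j m 0) := by
    have e : Bad3 Φ φ R Q i j m 0 = {z | ke z.2 ≤ R} ∩
        ((⋂ t : ℝ, ⋂ _ : ((0 : ℕ) : ℝ) ≤ t, ⋂ a : Fin N, ⋂ _ : a ∈ Q, ⋂ b : Fin N, ⋂ _ : b ∉ Q,
          {z | Φ ((φ t z).1 a - (φ t z).1 b) = 0}) ∩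
        ⋂ q : ℕ, ⋃ K : ℕ, ⋂ t : ℝ, ⋂ _ : (K : ℝ) ≤ t, {z | |f t z| ≤ 1 / ((q : ℝ) + 1)}) := by
      ext z
      simp only [Bad3, mem_ofPred_eq, mem_inter_iff, mem_iInter, mem_iUnion]
      refine and_congr_right fun _ => and_congr_right fun _ => ?_
      constructor
      · intro h q
        have h1 := (Metric.tendsto_atTop.1 h) (1 / ((q : ℝ) + 1)) (by positivity)
        obtain ⟨K, hK⟩ := h1
        obtain ⟨K', hK'⟩ := exists_nat_ge K
        refine ⟨K', fun t ht => ?_⟩
        have h2 := hK t (hK'.trans ht)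
        rw [Real.dist_eq, sub_zero] at h2
        exact h2.le
      · intro h
        rw [Metric.tendsto_atTop]
        intro ε hε
        obtain ⟨q, hq⟩ := exists_nat_one_div_lt hε
        obtain ⟨K, hK⟩ := h q
        refine ⟨K, fun t ht => ?_⟩
        rw [Real.dist_eq, sub_zero]
        exact lt_of_le_of_lt (hK t ht) hq
    rw [e]
    refine MeasurableSet.inter ?_ (MeasurableSet.inter ?_ ?_)
    · refine (isClosed_le ?_ continuous_const).measurableSet
      unfold ke
      fun_prop
    · refine IsClosed.measurableSet ?_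
      refine isClosed_iInter fun t => isClosed_iInter fun _ => isClosed_iInter fun a =>
        isClosed_iInter fun _ => isClosed_iInter fun b => isClosed_iInter fun _ => ?_
      refine isClosed_eq ?_ continuous_const
      have h1 := hct t
      have h2 := hΦ.smooth.continuous
      refine h2.comp ?_
      fun_prop
    · refine MeasurableSet.iInter fun q => MeasurableSet.iUnion fun K => IsClosed.measurableSet ?_
      refine isClosed_iInter fun t => isClosed_iInter fun _ => ?_
      exact isClosed_le (hfc t).abs continuous_const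
  refine null_of_lines volume _ hmeas ((0, shf Q m) : P N n) ?_
  rintro z ⟨hz1, hz2, hz3⟩ s ⟨hw1, hw2, hw3⟩
  set w : P N n := z + s • ((0, shf Q m) : P N n) with hw
  have hzf := (hR1 z hz1).2
  have hwf := (hR1 w hw1).2
  have hz2' : ∀ t, 0 ≤ t → ∀ a ∈ Q, ∀ b ∉ Q, Φ ((φ t z).1 a - (φ t z).1 b) = 0 :=
    fun t ht => hz2 t (by simpa using ht)
  have hw2' : ∀ t, 0 ≤ t → ∀ a ∈ Q, ∀ b ∉ Q, Φ ((φ t w).1 a - (φ t w).1 b) = 0 :=
    fun t ht => hw2 t (by simpa using ht)
  have key : ∀ t, 0 ≤ t → φ t w =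
      ((φ t z).1 + (t * s) • shf Q m, (φ t z).2 + s • shf Q m) := by
    intro T' hT'
    refine G_unique Φ hΦ Q (fun t => φ t w)
      (fun t => ((φ t z).1 + (t * s) • shf Q m, (φ t z).2 + s • shf Q m)) ?_ ?_ ?_ T' hT'
    · intro t ht
      obtain ⟨h1, h2⟩ := hwf t ht
      have h3 := h1.prodMk h2
      rw [force_dec Φ hΦ Q _ (hw2' t ht)] at h3
      exact h3
    · intro t ht
      obtain ⟨h1, h2⟩ := hzf t ht
      rw [force_dec Φ hΦ Q _ (hz2' t ht)] at h2
      have h4 : HasDerivWithinAt (fun t : ℝ => (t * s) • shf Q m) (s • shf Q m) (Ici 0) t := by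
        have h5 : HasDerivAt (fun t : ℝ => t * s) s t := by
          simpa using (hasDerivAt_id t).mul_const s
        exact (h5.smul_const (shf Q m)).hasDerivWithinAt
      have h3 := (h1.add h4).prodMk (h2.add_const (s • shf Q m))
      have e : G Φ Q ((φ t z).1 + (t * s) • shf Q m, (φ t z).2 + s • shf Q m) =
          ((φ t z).2 + s • shf Q m, dec Φ Q (φ t z)) := by
        unfold G
        rw [dec_shift Φ Q m (φ t z) (t * s) s]
      show HasDerivWithinAt _ (G Φ Q ((φ t z).1 + (t * s) • shf Q m, (φ t z).2 + s • shf Q m))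
        (Ici 0) t
      rw [e]
      exact h3
    · simp only [hφ.zero, zero_mul, zero_smul, add_zero]
      rw [hw]
      ext1
      · show z.1 + s • (0 : C N n) = z.1
        rw [smul_zero, add_zero]
      · rfl
  -- the limit
  have h1 : Tendsto (fun t => f t w - f t z) atTop (𝓝 (0 - 0)) := hw3.sub hz3
  have h2 : (fun t => f t w - f t z) =ᶠ[atTop] fun _ => s * ‖m‖ ^ 2 := by
    filter_upwards [eventually_ge_atTop (0 : ℝ)] with t ht
    simp only [hf]
    rw [key t ht]
    have e1 : shf Q m i = m := if_pos hi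
    have e2 : shf Q m j = 0 := if_neg hj
    simp only [Pi.add_apply, Pi.smul_apply, e1, e2, smul_zero, add_zero]
    rw [← inner_sub_right]
    have e3 : (φ t z).2 i + s • m - (φ t z).2 j - ((φ t z).2 i - (φ t z).2 j) = s • m := by
      abel
    rw [e3, inner_smul_right, real_inner_self_eq_norm_sq]
  have h3 := h1.congr' h2
  rw [tendsto_const_nhds_iff, sub_zero] at h3
  rcases mul_eq_zero.1 h3 with h4 | h4
  · exact h4
  · exfalso
    exact hm (norm_eq_zero.1 (pow_eq_zero_iff (two_ne_zero)|>.1 h4))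

end Pool.Agent.Work.MP_c9f990_an.Al
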