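import Pool.Agent.Work.MP_c9f990_an.Al.Main4
import Pool.Agent.Work.MP_c9f990_an.Bd.B01
import Pool.Agent.Work.MP_c9f990_an.Bd.B02
import Pool.Agent.Work.MP_c9f990_an.Al.I_FLD
import Pool.Agent.Work.MP_c9f990_an.Al.I_CHG
import Pool.Agent.Work.MP_c9f990_an.Bd.B03
import Pool.Agent.Work.MP_c9f990_an.Al.I_EST
import Pool.Agent.Work.MP_c9f990_an.Al.I_NUL3
import Pool.Agent.Work.MP_c9f990_an.Bd.B08
import Pool.Agent.Work.MP_c9f990_an.Al.I_TUB4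

set_option autoImplicit false

/-!
# MP_c9f990_an: block AL assembled
-/

open MeasureTheory Set Filter Topology

namespace Pool.Agent.Work.MP_c9f990_an.Al

theorem p_FLOW : FLOW := I_FLOW I_ODE
theorem p_FLD : FLD := I_FLD I_PERB
theorem p_DET : DET := I_DET I_LIOU I_TRF I_REP p_FLD
theorem p_FLUX : FLUX := I_FLUX I_CHG
theorem p_THIN : THIN := I_THIN I_TH1 I_TH2
theorem p_NUL1 : NUL1 := I_NUL1 I_EQV I_CHG
theorem p_NUL2 : NUL2 := I_NUL2 I_PERB I_EQV I_REP p_DET p_FLUX p_THIN I_DUR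
theorem p_CONV : CONV := I_CONV I_ENG I_FINS
theorem p_INTG : INTG := I_INTG I_ENG
theorem p_RESO : RESO := I_RESO I_PERB I_UE
theorem p_NUL3 : NUL3 := I_NUL3 I_REP I_NPRE

theorem p_NUL4 : NUL4 := I_NUL4 I_PERB I_EQV I_REP p_DET p_FLUX I_THD I_DUR

/-- block AL without hypotheses -/
theorem all_general4 (n N : ℕ) (Φ : E n → ℝ) (hΦ : Kernel Φ) :
    ∀ᵐ z : P N n, ∀ x v : ℝ → C N n, IsFlock Φ x v → (x 0, v 0) = z →
      ∃ c : C N n, (∀ i, Tendsto (fun t => v t i) atTop (𝓝 (c i))) ∧ Few c ∧ Spans c ∧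
        Contact Φ x c :=
  general4 p_FLOW p_FLD I_REP p_DET p_NUL1 p_NUL2 p_NUL3 p_NUL4 p_CONV p_INTG p_RESO I_EST I_TUBE
    I_TUB4 n N Φ hΦ

end Pool.Agent.Work.MP_c9f990_an.Al
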