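import Pool.Agent.Work.MP_c9f990_an.Bd.B02

set_option autoImplicit false

/-!
# MP_c9f990_an: linear algebra for `d` directions (item TUB4)
-/

open MeasureTheory Set Filter Topology
open scoped NNReal ENNReal

namespace Pool.Agent.Work.MP_c9f990_an.Al

namespace I_TUB4X

/-- matrices near the identity -/
lemma mat_inv {d : ℕ} (M : ℝ → Matrix (Fin d) (Fin d) ℝ) (h : Tendsto M atTop (𝓝 1)) :
    ∀ᶠ t in atTop, IsUnit (M t).det ∧ ∀ a b, |(M t)⁻¹ a b| ≤ 2 := by
  have hdet : Tendsto (fun t => (M t).det) atTop (𝓝 1) := by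
    have h1 : Continuous (fun A : Matrix (Fin d) (Fin d) ℝ => A.det) :=
      Continuous.matrix_det continuous_id
    have h2 := (h1.tendsto (1 : Matrix (Fin d) (Fin d) ℝ)).comp h
    rw [Matrix.det_one] at h2
    exact h2
  have hadj : Tendsto (fun t => (M t).adjugate) atTop (𝓝 1) := by
    have h1 : Continuous (fun A : Matrix (Fin d) (Fin d) ℝ => A.adjugate) :=
      Continuous.matrix_adjugate continuous_id
    have h2 := (h1.tendsto (1 : Matrix (Fin d) (Fin d) ℝ)).comp h
    rw [Matrix.adjugate_one] at h2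
    exact h2
  have hne : ∀ᶠ t in atTop, (M t).det ≠ 0 := hdet.eventually_ne one_ne_zero
  have hinv : Tendsto (fun t => ((M t).det)⁻¹ • (M t).adjugate) atTop (𝓝 1) := by
    have h1 := (hdet.inv₀ one_ne_zero).smul hadj
    simpa using h1
  have hent : ∀ a b, ∀ᶠ t in atTop, |(((M t).det)⁻¹ • (M t).adjugate) a b| ≤ 2 := by
    intro a b
    have h1 : Tendsto (fun t => (((M t).det)⁻¹ • (M t).adjugate) a b) atTop
        (𝓝 ((1 : Matrix (Fin d) (Fin d) ℝ) a b)) := by
      have h0 : Continuous (fun A : Matrix (Fin d) (Fin d) ℝ => A a b) :=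
        Continuous.matrix_elem continuous_id a b
      exact (h0.tendsto _).comp hinv
    have h2 : |(1 : Matrix (Fin d) (Fin d) ℝ) a b| < 2 := by
      rw [Matrix.one_apply]; split_ifs <;> norm_num
    exact (h1.abs.eventually_lt_const h2).mono (fun t ht => ht.le)
  have hall : ∀ᶠ t in atTop, ∀ a b, |(((M t).det)⁻¹ • (M t).adjugate) a b| ≤ 2 := by
    rw [eventually_all]
    intro a
    rw [eventually_all]
    exact hent a
  filter_upwards [hne, hall] with t h1 h2
  refine ⟨isUnit_iff_ne_zero.mpr h1, fun a b => ?_⟩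
  have h3 := h2 a b
  rw [Matrix.inv_def, Ring.inverse_eq_inv']
  exact h3

/-- existence of the indices -/
lemma exists_idx {n N : ℕ} (c : C N n) (i j : Fin N) (hij : c i = c j) (d : ℕ)
    (hd : d = Module.finrank ℝ (Submodule.span ℝ (Set.range (fun l => c l - c j)))) :
    ∃ k : Fin d → Fin N, Function.Injective k ∧ (∀ s, k s ≠ i) ∧ (∀ s, k s ≠ j) ∧
      LinearIndependent ℝ (fun s => c (k s) - c j) ∧
      Submodule.span ℝ (Set.range (fun s => c (k s) - c j)) =
        Submodule.span ℝ (Set.range (fun l => c l - c j)) := by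
  subst hd
  obtain ⟨f, hf1, hf2, hf3⟩ := Submodule.exists_fun_fin_finrank_span_eq ℝ
    (Set.range (fun l => c l - c j))
  choose k hk using hf1
  have hfk : (fun s => c (k s) - c j) = f := funext hk
  refine ⟨k, ?_, ?_, ?_, ?_, ?_⟩
  · intro a b hab
    apply hf3.injective
    rw [← hk a, ← hk b]
    simp only [hab]
  · intro s hs
    have h1 := hk s
    simp only [hs, hij, sub_self] at h1
    exact hf3.ne_zero s h1.symm
  · intro s hs
    have h1 := hk s
    simp only [hs, sub_self] at h1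
    exact hf3.ne_zero s h1.symm
  · rw [hfk]; exact hf3
  · rw [hfk]; exact hf2

/-- the functionals dual to a linearly independent family, vanishing on the orthogonal
complement of the span -/
lemma exists_dual {n d : ℕ} (f : Fin d → E n) (hf : LinearIndependent ℝ f) :
    ∃ G : Fin d → (E n →L[ℝ] ℝ), (∀ a b, G a (f b) = if a = b then 1 else 0) ∧
      ∀ x : E n, (∀ a, G a x = 0) → x ∈ (Submodule.span ℝ (Set.range f))ᗮ := by
  set S := Submodule.span ℝ (Set.range f) with hS
  let b : Module.Basis (Fin d) ℝ S := Module.Basis.span hf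
  have hb : ∀ s, (b s : E n) = f s := fun s => by
    have h1 := Module.Basis.span_apply hf s
    exact congrArg Subtype.val h1
  let Pr : E n →L[ℝ] S := S.orthogonalProjectionOnto
  let G : Fin d → (E n →L[ℝ] ℝ) := fun a =>
    (LinearMap.toContinuousLinearMap (b.coord a)).comp Pr
  refine ⟨G, ?_, ?_⟩
  · intro a c
    have h1 : Pr (f c) = b c := by
      have h2 : Pr ((b c : S) : E n) = b c := 
        Submodule.orthogonalProjectionOnto_mem_subspace_eq_self (b c)
      rwa [hb c] at h2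
    change b.coord a (Pr (f c)) = _
    rw [h1, Module.Basis.coord_apply, Module.Basis.repr_self, Finsupp.single_apply]
    by_cases h : a = c
    · subst h; simp
    · rw [if_neg h, if_neg (fun h' => h h'.symm)]
  · intro x hx
    have h1 : Pr x = 0 := by
      apply b.ext_elem
      intro a
      have h2 := hx a
      change b.coord a (Pr x) = 0 at h2
      rw [Module.Basis.coord_apply] at h2
      rw [h2]; simp
    exact Submodule.orthogonalProjectionOnto_eq_zero_iff.mp h1

/-- solving for the coefficients -/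
lemma core {n d : ℕ} (G : Fin d → (E n →L[ℝ] ℝ)) (q : Fin d → E n)
    (h1 : IsUnit (Matrix.of (fun a b => G a (q b))).det)
    (h2 : ∀ a b, |(Matrix.of (fun a b => G a (q b)))⁻¹ a b| ≤ 2) (u : E n) :
    ∃ α : Fin d → ℝ, (∀ s, |α s| ≤ (2 * ∑ a, ‖G a‖) * ‖u‖) ∧
      ∀ a, G a (u - ∑ s, α s • q s) = 0 := by
  set M : Matrix (Fin d) (Fin d) ℝ := Matrix.of (fun a b => G a (q b)) with hM
  refine ⟨M⁻¹.mulVec (fun a => G a u), fun s => ?_, fun a => ?_⟩
  · have h3 : M⁻¹.mulVec (fun a => G a u) s = ∑ a, M⁻¹ s a * G a u := rfl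
    rw [h3]
    calc |∑ a, M⁻¹ s a * G a u| ≤ ∑ a, |M⁻¹ s a * G a u| := Finset.abs_sum_le_sum_abs _ _
      _ ≤ ∑ a, 2 * (‖G a‖ * ‖u‖) := by
          apply Finset.sum_le_sum
          intro a _
          rw [abs_mul]
          have h4 : |G a u| ≤ ‖G a‖ * ‖u‖ := (G a).le_opNorm u
          exact mul_le_mul (h2 s a) h4 (abs_nonneg _) (by norm_num)
      _ = (2 * ∑ a, ‖G a‖) * ‖u‖ := by
          rw [Finset.mul_sum, Finset.sum_mul]
          apply Finset.sum_congr rfl
          intro a _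
          ring
  · rw [map_sub, map_sum]
    have h3 : ∑ s, G a ((M⁻¹.mulVec (fun a => G a u) s) • q s) =
        (M.mulVec (M⁻¹.mulVec (fun a => G a u))) a := by
      change _ = ∑ s, M a s * (M⁻¹.mulVec (fun a => G a u) s)
      apply Finset.sum_congr rfl
      intro s _
      rw [map_smul, smul_eq_mul, mul_comm]
      rfl
    rw [h3, Matrix.mulVec_mulVec, Matrix.mul_nonsing_inv M h1, Matrix.one_mulVec, sub_self]

/-- the error term lies in the orthogonal complement -/
lemma err {n d m : ℕ} (S : Submodule ℝ (E n)) (b : OrthonormalBasis (Fin m) ℝ Sᗮ) (q : Fin d → E n)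
    (u : E n) (α : Fin d → ℝ) (C : Fin m → ℝ) (σ : ℝ)
    (hu : ∀ a, |inner ℝ (b a : E n) u| ≤ C a * σ)
    (hq : ∀ a s, |inner ℝ (b a : E n) (q s)| ≤ C a * σ)
    (hy : u - ∑ s, α s • q s ∈ Sᗮ) :
    ‖u - ∑ s, α s • q s‖ ≤ (1 + ∑ s, |α s|) * (∑ a, C a) * σ := by
  set y : E n := u - ∑ s, α s • q s with hydef
  have h1 : ∀ a, |inner ℝ (b a : E n) y| ≤ (1 + ∑ s, |α s|) * (C a * σ) := by
    intro a
    rw [hydef, inner_sub_right, inner_sum]
    calc |inner ℝ (b a : E n) u - ∑ s, inner ℝ (b a : E n) (α s • q s)|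
        ≤ |inner ℝ (b a : E n) u| + |∑ s, inner ℝ (b a : E n) (α s • q s)| := abs_sub _ _
      _ ≤ C a * σ + ∑ s, |α s| * (C a * σ) := by
          apply add_le_add (hu a)
          refine (Finset.abs_sum_le_sum_abs _ _).trans ?_
          apply Finset.sum_le_sum
          intro s _
          rw [inner_smul_right, abs_mul]
          exact mul_le_mul_of_nonneg_left (hq a s) (abs_nonneg _)
      _ = (1 + ∑ s, |α s|) * (C a * σ) := by rw [← Finset.sum_mul]; ring
  have h2 : ‖y‖ ≤ ∑ a, |inner ℝ (b a : E n) y| := by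
    have h3 : (∑ a, inner ℝ (b a) (⟨y, hy⟩ : Sᗮ) • b a) = (⟨y, hy⟩ : Sᗮ) := b.sum_repr' _
    have h4 : ‖y‖ = ‖(⟨y, hy⟩ : Sᗮ)‖ := rfl
    rw [h4]
    conv_lhs => rw [← h3]
    refine (norm_sum_le _ _).trans ?_
    apply Finset.sum_le_sum
    intro a _
    rw [norm_smul, b.norm_eq_one, mul_one]
    exact le_of_eq rfl
  calc ‖y‖ ≤ ∑ a, |inner ℝ (b a : E n) y| := h2
    _ ≤ ∑ a, (1 + ∑ s, |α s|) * (C a * σ) := Finset.sum_le_sum (fun a _ => h1 a)
    _ = (1 + ∑ s, |α s|) * (∑ a, C a) * σ := by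
        rw [← Finset.mul_sum, ← Finset.sum_mul]; ring

end I_TUB4X

open I_TUB4X in
theorem I_TUB4 : TUB4 := by
  intro n N v c σ i j hv hij hσ he d hd
  obtain ⟨k, hk1, hk2, hk3, hk4, hk5⟩ := exists_idx c i j hij d hd
  refine ⟨k, hk1, hk2, hk3, ?_⟩
  set f : Fin d → E n := fun s => c (k s) - c j with hf
  obtain ⟨G, hG1, hG2⟩ := exists_dual f hk4
  set S : Submodule ℝ (E n) := Submodule.span ℝ (Set.range f) with hS
  have hcS : ∀ l, c l - c j ∈ S := by
    intro l
    rw [hk5]
    exact Submodule.subset_span ⟨l, rfl⟩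
  let b := stdOrthonormalBasis ℝ Sᗮ
  -- bounds for the orthogonal components
  have hb0 : ∀ a, ∀ l l', inner ℝ (b a : E n) (c l) = inner ℝ (b a : E n) (c l') := by
    intro a
    have h1 : ∀ l, inner ℝ (b a : E n) (c l - c j) = 0 := fun l =>
      Submodule.inner_left_of_mem_orthogonal (hcS l) (b a).2
    intro l l'
    have h2 := h1 l
    have h3 := h1 l'
    rw [inner_sub_right] at h2 h3
    linarith
  choose A T hAT using fun a => he (b a : E n) (hb0 a)
  -- eventually bounds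
  have hd1 : ∀ l l', Tendsto (fun t => v t l - v t l') atTop (𝓝 (c l - c l')) := fun l l' =>
    (hv l).sub (hv l')
  have hM : Tendsto (fun t => Matrix.of (fun a s => G a (v t (k s) - v t j))) atTop
      (𝓝 (1 : Matrix (Fin d) (Fin d) ℝ)) := by
    refine tendsto_pi_nhds.mpr (fun a => tendsto_pi_nhds.mpr (fun s => ?_))
    have h1 : Tendsto (fun t => G a (v t (k s) - v t j)) atTop (𝓝 (G a (f s))) :=
      ((G a).continuous.tendsto _).comp (hd1 (k s) j)
    rw [hG1 a s] at h1
    rw [Matrix.one_apply]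
    exact h1
  have hB : ∀ᶠ t in atTop, ∀ l, ‖v t l - v t j‖ ≤ ∑ l, ‖c l - c j‖ + 1 := by
    rw [eventually_all]
    intro l
    have h1 : ‖c l - c j‖ < ∑ l, ‖c l - c j‖ + 1 := by
      have h2 : ‖c l - c j‖ ≤ ∑ l, ‖c l - c j‖ :=
        Finset.single_le_sum (f := fun l => ‖c l - c j‖) (fun l _ => norm_nonneg _)
          (Finset.mem_univ l)
      linarith
    exact ((hd1 l j).norm.eventually_lt_const h1).mono (fun t ht => ht.le)
  have hE2 : ∀ᶠ t in atTop, ∀ a, T a ≤ t := by
    rw [eventually_all]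
    intro a
    exact eventually_ge_atTop (T a)
  set B : ℝ := ∑ l, ‖c l - c j‖ + 1 with hBdef
  have hB0 : 0 ≤ B := by
    have h1 : 0 ≤ ∑ l, ‖c l - c j‖ := Finset.sum_nonneg (fun l _ => norm_nonneg _)
    linarith
  set K : ℝ := 2 * ∑ a, ‖G a‖ with hK
  have hK0 : 0 ≤ K := mul_nonneg (by norm_num) (Finset.sum_nonneg (fun a _ => norm_nonneg _))
  set C2 : ℝ := ∑ a, |A a| with hC2
  have hC20 : 0 ≤ C2 := Finset.sum_nonneg (fun a _ => abs_nonneg _)
  obtain ⟨T₀, hT₀⟩ := eventually_atTop.mp ((mat_inv _ hM).and (hB.and hE2))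
  refine ⟨K + K * B + (1 + d * (K * B)) * C2 + 1, T₀, by positivity, ?_⟩
  intro t ht
  obtain ⟨⟨hdet, hinv⟩, hBt, hTt⟩ := hT₀ t ht
  have key : ∀ l, ∃ α : Fin d → ℝ, (∀ s, |α s| ≤ K * ‖v t l - v t j‖) ∧
      ‖(v t l - v t j) - ∑ s, α s • (v t (k s) - v t j)‖ ≤
        (K + K * B + (1 + d * (K * B)) * C2 + 1) * σ t := by
    intro l
    obtain ⟨α, hα1, hα2⟩ := core G (fun s => v t (k s) - v t j) hdet hinv (v t l - v t j)
    refine ⟨α, hα1, ?_⟩
    have h1 := err S b (fun s => v t (k s) - v t j) (v t l - v t j) α (fun a => |A a|) (σ t)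
      (fun a => (hAT a t (hTt a) l j).trans (mul_le_mul_of_nonneg_right (le_abs_self _) (hσ t)))
      (fun a s => (hAT a t (hTt a) (k s) j).trans
        (mul_le_mul_of_nonneg_right (le_abs_self _) (hσ t)))
      (hG2 _ hα2)
    refine h1.trans (mul_le_mul_of_nonneg_right ?_ (hσ t))
    have h2 : ∑ s, |α s| ≤ d * (K * B) := by
      calc ∑ s, |α s| ≤ ∑ s : Fin d, K * B := Finset.sum_le_sum (fun s _ =>
            (hα1 s).trans (mul_le_mul_of_nonneg_left (hBt l) hK0))
        _ = d * (K * B) := by rw [Finset.sum_const, Finset.card_univ, Fintype.card_fin, nsmul_eq_mul]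
    have h3 : (1 + ∑ s, |α s|) * C2 ≤ (1 + d * (K * B)) * C2 :=
      mul_le_mul_of_nonneg_right (by linarith) hC20
    have h4 : 0 ≤ K * B := mul_nonneg hK0 hB0
    linarith
  have hKA : K ≤ K + K * B + (1 + d * (K * B)) * C2 + 1 := by
    have : 0 ≤ K * B + (1 + d * (K * B)) * C2 + 1 := by positivity
    linarith
  have hKBA : K * B ≤ K + K * B + (1 + d * (K * B)) * C2 + 1 := by
    have : 0 ≤ K + (1 + d * (K * B)) * C2 + 1 := by positivity
    linarith
  constructor
  · obtain ⟨α, hα1, hα2⟩ := key i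
    exact ⟨α, fun s => (hα1 s).trans (mul_le_mul_of_nonneg_right hKA (norm_nonneg _)), hα2⟩
  · intro l
    obtain ⟨α, hα1, hα2⟩ := key l
    exact ⟨α, fun s => ((hα1 s).trans (mul_le_mul_of_nonneg_left (hBt l) hK0)).trans hKBA, hα2⟩

end Pool.Agent.Work.MP_c9f990_an.Al
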