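import Pool.Agent.Work.MP_c9f990_an.Bd.B03
import Pool.Agent.Work.MP_c9f990_an.Bd.B02

set_option autoImplicit false

/-!
# MP_c9f990_an: assembly of block AL, velocities in a proper affine subspace
-/

open MeasureTheory Set Filter Topology
open scoped NNReal ENNReal

namespace Pool.Agent.Work.MP_c9f990_an.Al

variable {N n : ℕ}

/-- if exactly one pair aligns then the limit velocities span, provided `2 n ≤ N` -/
def Spans (c : C N n) : Prop :=
  (∀ i j, c i = c j) ∨ ((Set.range c).ncard + 1 = N → 2 * n ≤ N → affineSpan ℝ (Set.range c) = ⊤)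

lemma finrank_pos_of (c : C N n) (j a b : Fin N) (hab : c a ≠ c b) :
    1 ≤ Module.finrank ℝ (Submodule.span ℝ (Set.range (fun l => c l - c j))) := by
  rw [Nat.one_le_iff_ne_zero]
  intro h
  have h1 : Submodule.span ℝ (Set.range (fun l => c l - c j)) = ⊥ :=
    Submodule.finrank_eq_zero.1 h
  rw [Submodule.span_eq_bot] at h1
  have h2 : ∀ l, c l = c j := fun l => sub_eq_zero.1 (h1 _ ⟨l, rfl⟩)
  exact hab ((h2 a).trans (h2 b).symm)

lemma affineSpan_top_of (c : C N n) (j : Fin N)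
    (h : Submodule.span ℝ (Set.range (fun l => c l - c j)) = ⊤) :
    affineSpan ℝ (Set.range c) = ⊤ := by
  have h1 : vectorSpan ℝ (Set.range c) = ⊤ := by
    rw [vectorSpan_eq_span_vsub_set_right ℝ (Set.mem_range_self j)]
    rw [← h]
    congr 1
    ext y
    constructor
    · rintro ⟨_, ⟨l, rfl⟩, rfl⟩
      exact ⟨l, rfl⟩
    · rintro ⟨l, rfl⟩
      exact ⟨c l, ⟨l, rfl⟩, rfl⟩
  have h2 : (affineSpan ℝ (Set.range c)).direction = ⊤ := by
    rw [direction_affineSpan, h1]
  exact (AffineSubspace.direction_eq_top_iff_of_nonempty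
    ⟨c j, subset_affineSpan ℝ _ (Set.mem_range_self j)⟩).1 h2

theorem core4 (hRep : REP) (hDet : DET) (hInt : INTG) (hEst : EST)
    (hTub : TUB4) (Φ : E n → ℝ) (hΦ : Kernel Φ) (R : ℝ) (φ : ℝ → P N n → P N n)
    (M : ℝ → P N n → P N n →L[ℝ] P N n) (hφ : IsFlow (fld Φ R) φ M) (z : P N n)
    (hz : ke z.2 ≤ R)
    (h1 : ∀ (q : ℕ) (i j : Fin N) (m : Fin n → ℤ), i ≠ j → m ≠ 0 →
      z ∉ Bad1 φ M R (1 / ((q : ℝ) + 1)) i j (intV m))
    (h2 : ∀ (d : ℕ) (i j : Fin N) (k : Fin d → Fin N), i ≠ j → Function.Injective k →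
      (∀ s, k s ≠ i) → (∀ s, k s ≠ j) → 1 ≤ d → d ≤ n → n ≤ (n - d) * (N - 1 - d) →
      z ∉ Bad4 Φ φ R i j k)
    (c : C N n) (hc : ∀ i, Tendsto (fun t => (φ t z).2 i) atTop (𝓝 (c i))) : Spans c := by
  classical
  obtain ⟨hke, hfl⟩ := (hRep n N Φ R hΦ φ M hφ).1 z hz
  have hy : Continuous (fun t => φ t z) := hφ.cont.comp (Continuous.prodMk continuous_id continuous_const)
  have hdiff : ∀ (e : E n) (a b : Fin N), inner ℝ e (c a - c b) = (0 : ℝ) →
      Tendsto (fun t => inner ℝ e ((φ t z).2 a - (φ t z).2 b)) atTop (𝓝 (0 : ℝ)) := by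
    intro e a b h
    have h3 := (hc a).sub (hc b)
    have h4 : Tendsto (fun t => inner ℝ e ((φ t z).2 a - (φ t z).2 b)) atTop
        (𝓝 (inner ℝ e (c a - c b))) :=
      ((continuous_const.inner continuous_id).tendsto (c a - c b)).comp h3
    rwa [h] at h4
  have hdetb : BddInt (fun t => total Φ (φ t z)) → ∃ q : ℕ, ∀ t, 0 ≤ t →
      1 / ((q : ℝ) + 1) ≤ |(M t z).det| := by
    rintro ⟨A, hA⟩
    obtain ⟨q, hq⟩ := exists_nat_one_div_lt (Real.exp_pos (-(n : ℝ) * A))
    refine ⟨q, fun t ht => ?_⟩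
    rw [hDet n N Φ R hΦ φ M hφ z hz t ht, Real.abs_exp]
    refine hq.le.trans (Real.exp_le_exp.2 ?_)
    have h3 := hA t ht
    have h4 : (0 : ℝ) ≤ n := Nat.cast_nonneg n
    nlinarith [mul_le_mul_of_nonneg_left h3 h4]
  by_cases hall : ∀ i j, c i = c j
  · exact Or.inl hall
  right
  push Not at hall
  obtain ⟨a₀, b₀, hab₀⟩ := hall
  have hn : (0 : ℕ) < n := by
    rcases Nat.eq_zero_or_pos n with h0 | h0
    · subst h0
      exact absurd (Subsingleton.elim _ _) hab₀
    · exact h0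
  intro hs1 h2n
  obtain ⟨i, j, hij, hcij, hoth⟩ := one_pair c hs1
  have hrest : BddInt (fun t => rest Φ i j (φ t z)) := by
    apply bddInt_rest hΦ hy
    intro a b hab h3 h4
    exact hInt n N Φ hΦ _ _ hfl c hc a b (hoth a b hab h3 h4)
  by_cases hbond : BddInt (fun t => bond Φ i j (φ t z))
  · exfalso
    have htot : BddInt (fun t => total Φ (φ t z)) := by
      have h3 : (fun t => total Φ (φ t z)) =
          fun t => bond Φ i j (φ t z) + rest Φ i j (φ t z) := by
        funext t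
        exact total_eq Φ hΦ i j hij (φ t z)
      rw [h3]
      obtain ⟨A, hA⟩ := hbond
      obtain ⟨A', hA'⟩ := hrest
      refine ⟨A + A', fun T hT => ?_⟩
      rw [intervalIntegral.integral_add]
      · exact add_le_add (hA T hT) (hA' T hT)
      · apply Continuous.intervalIntegrable
        unfold bond
        exact continuous_const.mul (cont_pair hΦ hy i j)
      · apply Continuous.intervalIntegrable
        unfold rest
        refine continuous_const.mul (continuous_finsetSum _ fun a _ =>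
          continuous_finsetSum _ fun b _ => ?_)
        split_ifs
        · exact continuous_const
        · exact cont_pair hΦ hy a b
    obtain ⟨q, hq⟩ := hdetb htot
    have hm : (fun _ : Fin n => (1 : ℤ)) ≠ 0 := by
      intro h
      exact one_ne_zero (congrFun h ⟨0, hn⟩)
    refine h1 q i j _ hij hm ⟨fun t ht => ⟨hke t ht, hq t ht⟩, ?_⟩
    apply hdiff
    rw [hcij, sub_self, inner_zero_right]
  · by_contra htop
    set d := Module.finrank ℝ (Submodule.span ℝ (Set.range (fun l => c l - c j))) with hd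
    have hd1 : 1 ≤ d := finrank_pos_of c j a₀ b₀ hab₀
    have hdn : d < n := by
      have h3 : Submodule.span ℝ (Set.range (fun l => c l - c j)) ≠ ⊤ :=
        fun h => htop (affineSpan_top_of c j h)
      have h4 := Submodule.finrank_lt h3
      rwa [finrank_euclideanSpace, Fintype.card_fin] at h4
    have hcount : n ≤ (n - d) * (N - 1 - d) := by
      have h3 : 1 ≤ n - d := by omega
      have h4 : n ≤ N - 1 - d := by omega
      calc n = 1 * n := (one_mul n).symm
        _ ≤ (n - d) * (N - 1 - d) := Nat.mul_le_mul h3 h4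
    obtain ⟨k, hk1, hk2, hk3, A, T₀, hA0, hA⟩ := hTub n N (fun t => (φ t z).2) c
      (fun t => Real.exp (-clock Φ i j (fun s => φ s z) t)) i j hc hcij
      (fun t => (Real.exp_pos _).le)
      (fun e he => hEst n N Φ hΦ _ _ hfl c hc i j hij hrest e he) d hd
    refine h2 d i j k hij hk1 hk2 hk3 hd1 hdn.le hcount ⟨hz, hrest, hbond, ?_, A, T₀, hA0, ?_⟩
    · have h3 := (hc i).sub (hc j)
      rwa [hcij, sub_self] at h3
    · intro t ht
      exact ⟨(hA t ht).1, fun l _ _ _ => (hA t ht).2 l⟩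

/-- the general theorem of block AL -/
theorem general4 (hFlow : FLOW) (hFld : FLD) (hRep : REP) (hDet : DET) (hN1 : NUL1) (hN2 : NUL2)
    (hN3 : NUL3) (hN4 : NUL4) (hConv : CONV) (hInt : INTG) (hReso : RESO) (hEst : EST)
    (hTube : TUBE) (hTub : TUB4) (n N : ℕ) (Φ : E n → ℝ) (hΦ : Kernel Φ) :
    ∀ᵐ z : P N n, ∀ x v : ℝ → C N n, IsFlock Φ x v → (x 0, v 0) = z →
      ∃ c : C N n, (∀ i, Tendsto (fun t => v t i) atTop (𝓝 (c i))) ∧ Few c ∧ Spans c ∧
        Contact Φ x c := by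
  have hfl : ∀ R : ℕ, ∃ (φ : ℝ → P N n → P N n) (M : ℝ → P N n → P N n →L[ℝ] P N n),
      IsFlow (fld Φ (R : ℝ)) φ M := by
    intro R
    obtain ⟨hC, L, hL⟩ := hFld n N Φ R hΦ
    exact hFlow _ _ L hL hC
  choose φ M hφ using hfl
  have hae : ∀ᵐ z : P N n, ∀ R : ℕ,
      (∀ (q : ℕ) (i j : Fin N) (m : Fin n → ℤ), i ≠ j → m ≠ 0 →
        z ∉ Bad1 (φ R) (M R) R (1 / ((q : ℝ) + 1)) i j (intV m)) ∧
      (∀ (d : ℕ) (i j : Fin N) (k : Fin d → Fin N), i ≠ j → Function.Injective k →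
        (∀ s, k s ≠ i) → (∀ s, k s ≠ j) → 1 ≤ d → d ≤ n → n ≤ (n - d) * (N - 1 - d) →
        z ∉ Bad4 Φ (φ R) R i j k) := by
    rw [ae_all_iff]
    intro R
    rw [eventually_and]
    refine ⟨?_, ?_⟩
    · simp only [ae_all_iff]
      intro q i j m hij hm
      have h3 := hN1 n N Φ R hΦ (φ R) (M R) (hφ R) i j (intV m) (1 / ((q : ℝ) + 1)) hij
        (intV_ne hm) (by positivity)
      exact measure_eq_zero_iff_ae_notMem.1 h3
    · simp only [ae_all_iff]
      intro d i j k hij hk hki hkj hd1 hdn hco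
      have h3 := hN4 n N d Φ R hΦ (φ R) (M R) (hφ R) i j k hij hk hki hkj hd1 hdn hco
      exact measure_eq_zero_iff_ae_notMem.1 h3
  filter_upwards [hae, general3 hFlow hFld hRep hDet hN1 hN2 hN3 hConv hInt hReso hEst hTube n N
    Φ hΦ] with z hz hz3
  intro x v hxv h0
  obtain ⟨c, hc, hfew, hcon⟩ := hz3 x v hxv h0
  refine ⟨c, hc, hfew, ?_, hcon⟩
  obtain ⟨R, hR⟩ := exists_nat_ge (ke z.2)
  have hv0 : v 0 = z.2 := by rw [← h0]
  have hrep : ∀ t, 0 ≤ t → (x t, v t) = φ R t z := by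
    intro t ht
    have h3 := (hRep n N Φ R hΦ (φ R) (M R) (hφ R)).2 x v hxv (by rw [hv0]; exact hR) t ht
    rw [h3, h0]
  have hc' : ∀ i, Tendsto (fun t => (φ R t z).2 i) atTop (𝓝 (c i)) := by
    intro i
    refine (hc i).congr' ?_
    filter_upwards [eventually_ge_atTop (0 : ℝ)] with t ht
    rw [← hrep t ht]
  exact core4 hRep hDet hInt hEst hTub Φ hΦ R (φ R) (M R) (hφ R) z hR (hz R).1 (hz R).2 c hc'

end Pool.Agent.Work.MP_c9f990_an.Al
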